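import Pool.Agent.Lib.MP_715591_co.K24.Static

/-!
The checker.
-/

namespace Pool.Agent.Lib.MP_715591_co.K24

/-- data of a vertex: label, neighbours of the first player, forbidden set, degree -/
structure Row where
  i : ℕ
  a : ℕ
  bb : ℕ
  d : ℕ

/-- tables -/
inductive Tr where
  | leaf : ℕ → Tr
  | node : Tr → Tr → Tr

noncomputable section

/-- table look-up -/
def Tr.get (t : Tr) : ℕ → ℕ :=
  @Tr.rec (fun _ => ℕ → ℕ) (fun n _ => n) (fun _ _ l r i =>
    cnd (Nat.beq (Nat.land i 1) 0) (frc (Nat.shiftRight i 1) l) (frc (Nat.shiftRight i 1) r)) t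

/-- cheapest way to get `t` pages -/
def take (t n0 n1 : ℕ) : ℕ := frc (Nat.sub t n0) fun r => Nat.add r (Nat.sub r n1)

/-- failure flag -/
def flag : ℕ := Nat.shiftLeft 1 320

/-- critical edges of a pair whose cost equals the bound -/
def critM (c t : ℕ) (r s : Row) (ok m1 n0 n1 : ℕ) : ℕ :=
  Nat.lor (Nat.lor (rowcol s.i (Nat.land m1 r.a)) (rowcol r.i (Nat.land m1 s.a)))
    (cnd (Nat.ble (Nat.add 2 (take (Nat.sub t 1) n0 n1)) c)
      (Nat.lor (rowcol r.i ok) (rowcol s.i ok)) 0)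

/-- contribution of a pair of vertices -/
def pairT (c t : ℕ) (r s : Row) (acc : ℕ) : ℕ :=
  cnd (Nat.blt (Nat.add (Nat.add r.d s.d) c) (Nat.mul 2 t)) acc (cnd (Nat.beq r.i s.i) acc
    (frc (Nat.xor 65535 (Nat.lor r.bb s.bb)) fun ok =>
      frc (Nat.land (Nat.xor r.a s.a) ok) fun m1 => frc (pc (Nat.land r.a s.a)) fun n0 =>
      frc (pc m1) fun n1 => frc (take t n0 n1) fun cost =>
        cnd (Nat.ble cost c) (Nat.lor (cnd (Nat.beq cost c) (critM c t r s ok m1 n0 n1) flag) acc)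
          acc))

/-- one vertex against a list -/
def critR (c t : ℕ) (r : Row) (l : List Row) (acc : ℕ) : ℕ :=
  @List.rec Row (fun _ => ℕ) acc (fun s _ ih => pairT c t r s ih) l

/-- all pairs -/
def critT (c : ℕ) (l : List Row) : ℕ :=
  @List.rec Row (fun _ => ℕ) 0 (fun r l ih => critR c 4 r l ih) l

/-- the row of a vertex -/
def mkRow {α : Type} (X Y i : ℕ) (k : Row → α) : α :=
  frc (row X i) fun a => frc (Nat.lor (row Y i) (Nat.shiftLeft 1 i)) fun bb => frc (pc a) fun d =>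
    k ⟨i, a, bb, d⟩

/-- all rows -/
def rowsK {α : Type} (X Y m : ℕ) (k : List Row → α) : List Row → α :=
  @Nat.rec (fun _ => List Row → α) k (fun i ih l => mkRow X Y i fun r => ih (r :: l)) m

/-- critical edges for the vertices of a stream -/
def critS (X Y : ℕ) (R : List Row) (c ψ fuel : ℕ) : ℕ → ℕ → ℕ :=
  @Nat.rec (fun _ => ℕ → ℕ → ℕ) (fun _ acc => acc) (fun _ ih code acc => cnd (Nat.beq code 0) acc
    (frc (nib ψ (Nat.land code 15)) fun v => mkRow X Y v fun r =>
      critR c 3 r R (frc (Nat.shiftRight code 8) fun z => ih z acc))) fuel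

/-- level of a pattern -/
def pt (P : ℕ) : ℕ := Nat.land P 15
/-- size of a pattern -/
def pm (P : ℕ) : ℕ := Nat.land (Nat.shiftRight P 4) 15
/-- marked vertices of a pattern -/
def pS (P : ℕ) : ℕ := Nat.land (Nat.shiftRight P 8) 4294967295
/-- edges of a pattern -/
def pG (P : ℕ) : ℕ := Nat.land (Nat.shiftRight P 40) 1208925819614629174706175
/-- zone of a pattern -/
def pZ (P : ℕ) : ℕ := Nat.shiftRight P 120

/-- use of patterns at a node; `U` is the set of moves still to be answered -/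
def groups (PT : Tr) (np X Y : ℕ) (R : List Row) (c crit : ℕ) (k : ℕ → Bool) (fuel : ℕ) :
    ℕ → ℕ → Bool :=
  @Nat.rec (fun _ => ℕ → ℕ → Bool) (fun _ _ => false) (fun _ ih code U => cnd (Nat.beq code 0) (k U)
    (frc (Nat.land code 255) fun id => frc (PT.get id) fun P =>
     frc (Nat.land (Nat.shiftRight code 8) 17592186044415) fun ψ => frc (pt P) fun t =>
     frc (img ψ 8 16 (pZ P)) fun Z =>
     frc (critS X Y R (Nat.sub t 1) ψ 4 (pS P) (cnd (Nat.beq t c) (Nat.lor crit Z) Z)) fun bad =>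
      an (Nat.blt id np) (an (Nat.beq (pc (vals ψ (pm P))) (pm P)) (an (Nat.ble t c)
        (an (sub (img ψ 8 16 (pG P)) Y) (an (Nat.beq (Nat.land Z X) 0) (an (Nat.blt bad flag)
          (frc (Nat.shiftRight code 52) fun z => frc (Nat.land U bad) fun W => ih z W)))))))) fuel

/-- explicit answers at a node -/
def kids (T : Tr) (j X Y fuel : ℕ) : ℕ → ℕ → Bool :=
  @Nat.rec (fun _ => ℕ → ℕ → Bool) (fun _ _ => false) (fun _ ih code U =>
    cnd (Nat.beq code 0) (Nat.beq U 0)
    (frc (Nat.land code 15) fun x => frc (Nat.land (Nat.shiftRight code 4) 15) fun y =>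
     frc (Nat.land (Nat.shiftRight code 8) 15) fun p =>
     frc (Nat.land (Nat.shiftRight code 12) 15) fun q =>
     frc (Nat.land (Nat.shiftRight code 16) 16383) fun id =>
     frc (Nat.land (Nat.shiftRight code 30) 18446744073709551615) fun ψ =>
     frc (T.get id) fun N => frc (bit2 x y) fun e => frc (Nat.lor X e) fun X1 =>
      an (Nat.blt id j) (an (Nat.beq (pc (vals ψ 16)) 16) (an (Nat.blt p q)
        (an (cnd (tb X1 (Nat.add (Nat.mul 16 p) q)) false true) (an (sub X1 (img ψ 16 32 N))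
          (an (sub (img ψ 16 32 (Nat.shiftRight N 8)) (Nat.lor Y (bit2 p q)))
            (frc (Nat.shiftRight code 94) fun z => frc (Nat.xor U (Nat.land U e)) fun W =>
              ih z W)))))))) fuel

/-- the moves `x < y ≤ n` and `n, n + 1` -/
def canon (n : ℕ) : ℕ :=
  @Nat.rec (fun _ => ℕ) (Nat.shiftLeft 1 (Nat.add (Nat.mul 17 n) 1)) (fun x s =>
    Nat.lor (Nat.shiftLeft (Nat.sub (Nat.shiftLeft 2 n) (Nat.shiftLeft 2 x)) (Nat.mul 16 x)) s) n

/-- identity map -/
def idm : ℕ := 18364758544493064720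

/-- check of an ordinary node -/
def nodeA (PT T : Tr) (np j X Y n c g ch : ℕ) : Bool :=
  an (Nat.ble n 14) (an (Nat.ble 2 c) (an (Nat.beq (Nat.land X Y) 0)
    (frc (Nat.lor X Y) fun occ => an (Nat.beq (Nat.shiftRight occ (Nat.mul 16 n)) 0)
      (rowsK X Y (Nat.add n 2) (fun R => frc (critT c R) fun crit => an (Nat.blt crit flag)
        (frc (canon n) fun C => frc (Nat.xor C (Nat.land C occ)) fun U =>
          groups PT np X Y R c crit (kids T j X Y 64 ch) 16 g U))
        [⟨16, 0, 0, 0⟩, ⟨17, 0, 0, 0⟩]))))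

/-- two hubs with `k` pages in a mask -/
def bookChk (M p q k : ℕ) : Bool :=
  an (Nat.blt p 16) (an (Nat.blt q 16) (an (cnd (Nat.beq p q) false true)
    (Nat.ble k (pc (Nat.land (Nat.land (row M p) (row M q))
      (Nat.xor 65535 (Nat.lor (Nat.shiftLeft 1 p) (Nat.shiftLeft 1 q))))))))

/-- neighbours in the envelope -/
def zrow (X O a b p : ℕ) : ℕ :=
  cnd (Nat.blt p 16) (Nat.lor (row X p) (cnd (Nat.beq p a || Nat.beq p b) O
    (cnd (tb O p) (Nat.lor (Nat.shiftLeft 1 a) (Nat.shiftLeft 1 b)) 0)))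
    (Nat.lor (Nat.shiftLeft 1 a) (Nat.shiftLeft 1 b))

/-- forbidden pages -/
def brow (Y p : ℕ) : ℕ := cnd (Nat.blt p 16) (Nat.lor (row Y p) (Nat.shiftLeft 1 p)) 0

/-- cost bound in the envelope, with some pages excluded -/
def costE (c t zp zq nb : ℕ) (hub : Bool) : Bool :=
  frc (Nat.xor 65535 nb) fun ok => Nat.ble c (take t
    (pc (Nat.land (Nat.land zp zq) ok)) (cnd hub 4 (pc (Nat.land (Nat.xor zp zq) ok))))

/-- check of a pair in the envelope -/
def pairE (X Y O a b c t p q : ℕ) : Bool :=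
  frc (zrow X O a b p) fun zp => frc (zrow X O a b q) fun zq =>
  frc (Nat.lor (brow Y p) (brow Y q)) fun nb =>
  cnd (Nat.beq p q) true
    (cnd (Nat.beq p a || Nat.beq p b)
      (cnd (Nat.beq q a || Nat.beq q b)
        (Nat.blt (pc (Nat.land (Nat.lor (row X a) (row X b)) (Nat.xor 65535 nb))) t)
        (costE c t zp zq nb true))
      (cnd (Nat.beq q a || Nat.beq q b)
        (costE c t zp zq nb true)
        (cnd ((Nat.ble 16 p || tb O p) || (Nat.ble 16 q || tb O q))
          (an (costE c t zp zq (Nat.lor nb (Nat.shiftLeft 1 a)) false)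
            (costE c t zp zq (Nat.lor nb (Nat.shiftLeft 1 b)) false))
          (costE c t zp zq nb false))))

/-- check of a node where both players have endless threats -/
def nodeB (X Y a b u v : ℕ) : Bool :=
  frc (Nat.xor 65535 (Nat.lor (Nat.lor (row X a) (row X b)) (Nat.lor (brow Y a) (brow Y b)))) fun O =>
  an (Nat.blt a b) (an (Nat.blt b 16) (an (Nat.beq (Nat.land X Y) 0) (an (bookChk Y u v 3)
    (an (allN 18 fun q => allN q fun p => pairE X Y O a b 3 4 p q)
      (allN 17 fun q => pairE X Y O a b 2 3 v q)))))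

/-- check of a node -/
def nodeChk (PT T : Tr) (np j h ch : ℕ) : Bool :=
  frc (T.get j) fun N => frc (img idm 16 32 N) fun X =>
  frc (img idm 16 32 (Nat.shiftRight N 8)) fun Y =>
    cnd (Nat.beq ch 1) (nodeB X Y (nib h 0) (nib h 1) (nib h 2) (nib h 3))
      (frc (nib h 0) fun n => frc (nib h 1) fun c => nodeA PT T np j X Y n c (Nat.shiftRight h 8) ch)

/-- check of a run of nodes -/
def chkL (PT T : Tr) (np hi : ℕ) (l : List (ℕ × ℕ)) : ℕ → Bool :=
  @List.rec (ℕ × ℕ) (fun _ => ℕ → Bool) (fun j => Nat.beq j hi)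
    (fun z _ ih j => an (nodeChk PT T np j z.1 z.2) (frc (Nat.succ j) ih)) l

/-- set of marked vertices -/
def marks (ψ fuel : ℕ) : ℕ → ℕ :=
  @Nat.rec (fun _ => ℕ → ℕ) (fun _ => 0) (fun _ ih code => cnd (Nat.beq code 0) 0
    (Nat.lor (Nat.shiftLeft 1 (nib ψ (Nat.land code 15))) (ih (Nat.shiftRight code 8)))) fuel

/-- the edges at a new vertex -/
def star (m k : ℕ) : ℕ := @Nat.rec (fun _ => ℕ) 0 (fun i s => Nat.lor (bit2 m i) s) k

/-- cases of a pattern -/
def casesP (PT : Tr) (j t m G Z S fuel : ℕ) : ℕ → ℕ → Bool :=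
  @Nat.rec (fun _ => ℕ → ℕ → Bool) (fun _ _ => false) (fun _ ih code I =>
    cnd (Nat.beq code 0) (sub I G)
    (frc (Nat.land code 255) fun id => frc (PT.get id) fun P =>
     frc (Nat.land (Nat.shiftRight code 8) 17592186044415) fun ψ =>
     frc (img ψ 8 16 (pZ P)) fun W =>
      an (Nat.blt id j) (an (Nat.beq (pc (vals ψ (pm P))) (pm P))
        (an (Nat.blt (vals ψ (pm P)) (Nat.shiftLeft 2 m)) (an (Nat.blt (pt P) t)
        (an (sub (img ψ 8 16 (pG P)) G) (an (sub W Z) (an (sub (marks ψ 4 (pS P)) S)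
          (ih (Nat.shiftRight code 52) (Nat.land I W)))))))))) fuel

/-- check of a pattern -/
def patChk (PT : Tr) (j D : ℕ) : Bool :=
  frc (PT.get j) fun P => frc (pt P) fun t => frc (pm P) fun m =>
  frc (img idm 8 16 (pG P)) fun G => frc (img idm 8 16 (pZ P)) fun Z =>
  frc (marks idm 4 (pS P)) fun S => frc (nib D 1) fun x => frc (nib D 2) fun y =>
    an (Nat.ble m 14) (an (Nat.beq (Nat.shiftRight (Nat.lor G Z) (Nat.mul 16 m)) 0)
      (an (Nat.blt S (Nat.shiftLeft 1 m))
      (cnd (Nat.beq (nib D 0) 0)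
        (an (Nat.ble 1 t) (an (Nat.blt x y) (an (tb Z (Nat.add (Nat.mul 16 x) y))
          (bookChk (Nat.lor G (bit2 x y)) (nib D 3) (nib D 4) 4))))
        (cnd (Nat.beq (nib D 0) 1) (an (Nat.ble 2 t) (an (tb S y) (bookChk G x y 3)))
          (an (an (Nat.ble 2 t) (Nat.blt 0 (Nat.shiftRight D 12))) (an (Nat.blt x y)
            (an (tb (Nat.lor Z (star m m)) (Nat.add (Nat.mul 16 x) y))
              (casesP PT j t m (Nat.lor G (bit2 x y)) (Nat.lor Z (star m m)) S 16
                (Nat.shiftRight D 12) (Nat.sub (Nat.shiftLeft 1 256) 1)))))))))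

/-- check of a run of patterns -/
def chkP (PT : Tr) (hi : ℕ) (l : List ℕ) : ℕ → Bool :=
  @List.rec ℕ (fun _ => ℕ → Bool) (fun j => Nat.beq j hi)
    (fun z _ ih j => an (patChk PT j z) (frc (Nat.succ j) ih)) l

end

end Pool.Agent.Lib.MP_715591_co.K24
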