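import Pool.Agent.Lib.MP_715591_co.K24.Pat

/-!
Soundness of the check of positions where both players have endless threats.
-/

namespace Pool.Agent.Lib.MP_715591_co.K24

open Classical

theorem costE_sound {Z : Set E} {F : Finset E} {p q c t zp zq nb : ℕ} {hub : Bool}
    {P : Finset ℕ} (hb : Book (Z ∪ F) p q P) (hc : P.card = t) (ht : t ≤ 4)
    (hp : ∀ w < 16, s(p, w) ∈ Z ↔ zp.testBit w = true)
    (hq : ∀ w < 16, s(q, w) ∈ Z ↔ zq.testBit w = true)
    (h0 : ∀ w, s(p, w) ∈ Z → s(q, w) ∈ Z → w < 16)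
    (h1 : hub = false → ∀ w, s(p, w) ∈ Z ∨ s(q, w) ∈ Z → w < 16)
    (n16 : ∀ w, nb.testBit w = true → w < 16) (hn : ∀ w ∈ P, ¬ nb.testBit w = true)
    (h : costE c t zp zq nb hub = true) :
    c ≤ F.card := by
  have mc := miss_count hb
  have sc := split_count (X := Z) (p := p) (q := q) P
  rw [hc] at mc sc
  have o16 : ∀ w, (Nat.xor 65535 nb).testBit w = true → w < 16 := fun w hw => by
    by_contra hh
    rw [tb_xor, tb_full] at hw
    exact hw ⟨fun a => absurd a hh, n16 w⟩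
  have ok : ∀ w ∈ P, w < 16 → (Nat.xor 65535 nb).testBit w = true := fun w hw h16 => by
    rw [tb_xor, tb_full]
    exact fun a => hn w hw (a.1 h16)
  have b0 : (P.filter fun w => s(p, w) ∈ Z ∧ s(q, w) ∈ Z).card ≤
      pc (Nat.land (Nat.land zp zq) (Nat.xor 65535 nb)) :=
    card_le_pc (fun i hi => o16 i ((tb_land _ _ _).1 hi).2) fun w hw => by
      obtain ⟨hw, a, b⟩ := Finset.mem_filter.1 hw
      have := h0 w a b
      exact (tb_land _ _ _).2 ⟨(tb_land _ _ _).2 ⟨(hp w this).1 a, (hq w this).1 b⟩, ok w hw this⟩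
  have b1 : (P.filter fun w => ¬ (s(p, w) ∈ Z ↔ s(q, w) ∈ Z)).card ≤
      cnd hub 4 (pc (Nat.land (Nat.xor zp zq) (Nat.xor 65535 nb))) := by
    rw [cnd_eq]
    split_ifs with hh
    swap
    · refine card_le_pc (fun i hi => o16 i ((tb_land _ _ _).1 hi).2) fun w hw => ?_
      obtain ⟨hw, a⟩ := Finset.mem_filter.1 hw
      have := h1 (Bool.eq_false_iff.2 hh) w (by by_contra hh; exact a ⟨fun x => absurd (Or.inl x) hh,
        fun x => absurd (Or.inr x) hh⟩)
      rw [hp w this, hq w this] at a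
      exact (tb_land _ _ _).2 ⟨(tb_xor _ _ _).2 a, ok w hw this⟩
    · omega
  have := take_le b0 b1 (t := t) (by omega)
  simp only [costE, frc_eq, Nat.ble_eq] at h
  omega

theorem brow_bit {Y l w : ℕ} (h : (brow Y l).testBit w = true) :
    l < 16 ∧ w < 16 ∧ (w = l ∨ s(l, w) ∈ ES Y) := by
  simp only [brow, cnd_eq, Nat.blt_eq] at h
  split_ifs at h with hl
  · rcases (tb_lor _ _ _).1 h with h | h
    · rw [tb_row] at h
      exact ⟨hl, h.1, Or.inr ⟨l, hl, w, h.1, h.2, rfl⟩⟩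
    · rw [tb_one] at h
      exact ⟨hl, h ▸ hl, Or.inl h⟩
  · simp at h

theorem brow_of {Y l w : ℕ} (sY : Sy Y) (hl : l < 16) (h : w = l ∨ s(l, w) ∈ ES Y) :
    (brow Y l).testBit w = true := by
  simp only [brow, cnd_eq, Nat.blt_eq, if_pos hl, tb_lor, tb_row, tb_one]
  rw [sY.mem] at h
  exact h.symm.imp (fun h => h.2) id

theorem prop1 {A B C D W : Prop} (h1 : A → W) (h2 : B → W) (h3 : C → W) (h4 : D → W) :
    ¬ (W ↔ (A ∨ B) ∨ C ∨ D) ↔ W ∧ ¬ A ∧ ¬ B ∧ ¬ C ∧ ¬ D := by tauto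

theorem prop2 {A B C D W N : Prop} (w : W) (h : ¬ (W ∧ ¬ A ∧ ¬ B ∧ ¬ C ∧ ¬ D)) (c : ¬ C) (d : ¬ D)
    (n : ¬ N) : (A ∨ B) ∧ ¬ (W ↔ N) := by tauto

theorem nodeB_sound {X Y a b u v : ℕ} (sX : Sy X) (sY : Sy Y) (hv : v < 16)
    (h : nodeB X Y a b u v = true) : Safe (ES X) (ES Y) := by
  simp only [nodeB, frc_eq, an_eq, Nat.blt_eq, Nat.beq_eq] at h
  obtain ⟨hab, hb16, hd, hm, hT, hP⟩ := h
  have ha16 : a < 16 := by omega
  set O := Nat.xor 65535 (Nat.lor (Nat.lor (row X a) (row X b)) (Nat.lor (brow Y a) (brow Y b)))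
    with hO
  have rx : ∀ p < 16, ∀ w, (row X p).testBit w = true ↔ s(p, w) ∈ ES X := fun p hp w => by
    rw [tb_row, sX.mem]; exact ⟨fun h => ⟨hp, h⟩, fun h => h.2⟩
  have Ob : ∀ w, O.testBit w = true ↔ w < 16 ∧ s(a, w) ∉ ES X ∧ s(b, w) ∉ ES X ∧
      ¬ (brow Y a).testBit w = true ∧ ¬ (brow Y b).testBit w = true := by
    intro w
    rw [hO, tb_xor, tb_full, tb_lor, tb_lor, tb_lor, rx a ha16, rx b hb16]
    have h1 : s(a, w) ∈ ES X → w < 16 := fun h => (sX.mem.1 h).2.1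
    have h2 : s(b, w) ∈ ES X → w < 16 := fun h => (sX.mem.1 h).2.1
    have h3 : (brow Y a).testBit w = true → w < 16 := fun h => (brow_bit h).2.1
    have h4 : (brow Y b).testBit w = true → w < 16 := fun h => (brow_bit h).2.1
    exact prop1 h1 h2 h3 h4
  set O' : Set ℕ := {w | 16 ≤ w ∨ O.testBit w = true} with hO'
  have aO : a ∉ O' := by
    rintro (h | h)
    exacts [by omega, ((Ob a).1 h).2.2.2.1 (brow_of sY ha16 (Or.inl rfl))]
  have bO : b ∉ O' := by
    rintro (h | h)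
    exacts [by omega, ((Ob b).1 h).2.2.2.2 (brow_of sY hb16 (Or.inl rfl))]
  have dj : ∀ e ∈ ES X, e ∉ ES Y := by
    rintro _ ⟨x, hx, y, hy, h1, rfl⟩ h2
    have := (tb_land X Y _).2 ⟨h1, (sY.mem.1 h2).2.2⟩
    rw [hd] at this
    simp at this
  set Z : Set E := ES X ∪ {e | ∃ w ∈ O', e = s(a, w) ∨ e = s(b, w)} with hZ
  have mZ : ∀ p w, s(p, w) ∈ Z ↔ s(p, w) ∈ ES X ∨ ((p = a ∨ p = b) ∧ w ∈ O') ∨
      ((w = a ∨ w = b) ∧ p ∈ O') := by
    intro p w
    refine or_congr_right ⟨?_, ?_⟩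
    · rintro ⟨x, hx, e | e⟩ <;> rcases Sym2.eq_iff.1 e with ⟨rfl, rfl⟩ | ⟨rfl, rfl⟩
      exacts [Or.inl ⟨Or.inl rfl, hx⟩, Or.inr ⟨Or.inl rfl, hx⟩, Or.inl ⟨Or.inr rfl, hx⟩,
        Or.inr ⟨Or.inr rfl, hx⟩]
    · rintro (⟨rfl | rfl, h⟩ | ⟨rfl | rfl, h⟩)
      exacts [⟨_, h, Or.inl rfl⟩, ⟨_, h, Or.inr rfl⟩, ⟨_, h, Or.inl Sym2.eq_swap⟩,
        ⟨_, h, Or.inr Sym2.eq_swap⟩]
  have ZY : ∀ e ∈ Z, e ∉ ES Y := by
    rintro e (h | ⟨w, hw | hw, rfl | rfl⟩) hy
    · exact dj e h hy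
    · exact absurd (sY.mem.1 hy).2.1 (by omega)
    · exact absurd (sY.mem.1 hy).2.1 (by omega)
    · exact ((Ob w).1 hw).2.2.2.1 (brow_of sY ha16 (Or.inr hy))
    · exact ((Ob w).1 hw).2.2.2.2 (brow_of sY hb16 (Or.inr hy))
  have big : ∀ p w, s(p, w) ∈ Z → ¬ w < 16 → p = a ∨ p = b := by
    intro p w h hw
    rcases (mZ p w).1 h with h | h | h
    exacts [absurd (sX.mem.1 h).2.1 hw, h.1, by omega]
  have zr : ∀ l p, (l = p ∧ p < 16) ∨ (16 ≤ l ∧ 16 ≤ p) → ∀ w < 16,
      (s(p, w) ∈ Z ↔ (zrow X O a b l).testBit w = true) := by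
    rintro l p (⟨rfl, hl⟩ | ⟨h1, h2⟩) w hw
    · simp only [zrow, cnd_eq, Nat.blt_eq, if_pos hl, tb_lor, rx l hl, mZ, Bool.or_eq_true,
        Nat.beq_eq, tb_eq]
      refine or_congr_right ?_
      have e1 : w ∈ O' ↔ O.testBit w = true := or_iff_right (by omega)
      have e2 : l ∈ O' ↔ O.testBit l = true := or_iff_right (by omega)
      by_cases c : l = a ∨ l = b
      · have : l ∉ O' := by rcases c with rfl | rfl <;> assumption
        rw [if_pos c, e1]
        exact ⟨fun h => h.elim (fun h => h.2) fun h => absurd h.2 this, fun h => Or.inl ⟨c, h⟩⟩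
      · rw [if_neg c]
        split_ifs with c2 <;> rw [← e2] at c2
        · rw [tb_lor, tb_one, tb_one]
          exact ⟨fun h => h.elim (fun h => absurd h.1 c) fun h => h.1, fun h => Or.inr ⟨h, c2⟩⟩
        · simp only [Nat.zero_testBit, Bool.false_eq_true]
          exact ⟨fun h => h.elim (fun h => c h.1) fun h => c2 h.2, False.elim⟩
    · have n1 : ¬ l < 16 := by omega
      have n2 : s(p, w) ∉ ES X := fun h => absurd (sX.mem.1 h).1 (by omega)
      have n3 : ¬ (p = a ∨ p = b) := by omega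
      have n4 : p ∈ O' := Or.inl h2
      simp only [zrow, cnd_eq, Nat.blt_eq, if_neg n1, tb_lor, tb_one, mZ]
      exact ⟨fun h => h.elim (fun h => absurd h n2) fun h => h.elim (fun h => absurd h.1 n3)
        fun h => h.1, fun h => Or.inr (Or.inr ⟨h, n4⟩)⟩
  have key : ∀ c t p q lp lq (F : Finset E) (P : Finset ℕ), (lp = p ∧ p < 16) ∨ (16 ≤ lp ∧ 16 ≤ p) →
      (lq = q ∧ q < 16) ∨ (16 ≤ lq ∧ 16 ≤ q) → lp ≠ lq → pairE X Y O a b c t lp lq = true →
      (∀ e ∈ F, e ∉ ES Y) → P.card = t → t ≤ 4 → Book (Z ∪ F) p q P → Excl a b O' p q P →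
      c ≤ F.card := by
    intro c t p q lp lq F P hlp hlq unb h hF hc ht hb hE
    have hpq := hb.1
    have nY : ∀ e, InT p q P e → e ∉ ES Y := fun e he => by
      rcases hb.inT he with h | h
      exacts [ZY e h, hF e h]
    have ip : ∀ w ∈ P, InT p q P s(p, w) := fun w hw => ⟨w, hw, Or.inl rfl⟩
    have iq : ∀ w ∈ P, InT p q P s(q, w) := fun w hw => ⟨w, hw, Or.inr rfl⟩
    have nb16 : ∀ w, (Nat.lor (brow Y lp) (brow Y lq)).testBit w = true → w < 16 := fun w h => by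
      rcases (tb_lor _ _ _).1 h with h | h <;> exact (brow_bit h).2.1
    have nbP : ∀ w ∈ P, ¬ (Nat.lor (brow Y lp) (brow Y lq)).testBit w = true := fun w hw h => by
      rcases (tb_lor _ _ _).1 h with h | h
      · obtain ⟨h1, -, h2⟩ := brow_bit h
        obtain rfl : lp = p := by omega
        rcases h2 with rfl | h2
        exacts [hb.2.1 hw, nY _ (ip w hw) h2]
      · obtain ⟨h1, -, h2⟩ := brow_bit h
        obtain rfl : lq = q := by omega
        rcases h2 with rfl | h2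
        exacts [hb.2.2.1 hw, nY _ (iq w hw) h2]
    have ep : (lp = a ∨ lp = b) ↔ (p = a ∨ p = b) := by omega
    have eq : (lq = a ∨ lq = b) ↔ (q = a ∨ q = b) := by omega
    have op : (16 ≤ lp ∨ O.testBit lp = true) ↔ p ∈ O' := by
      rcases hlp with ⟨rfl, -⟩ | h
      exacts [Iff.rfl, iff_of_true (Or.inl h.1) (Or.inl h.2)]
    have oq : (16 ≤ lq ∨ O.testBit lq = true) ↔ q ∈ O' := by
      rcases hlq with ⟨rfl, -⟩ | h
      exacts [Iff.rfl, iff_of_true (Or.inl h.1) (Or.inl h.2)]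
    have cE : ∀ nb hub, ¬ ((p = a ∨ p = b) ∧ (q = a ∨ q = b)) →
        (hub = false → ¬ (p = a ∨ p = b) ∧ ¬ (q = a ∨ q = b)) →
        (∀ w, nb.testBit w = true → w < 16) → (∀ w ∈ P, ¬ nb.testBit w = true) →
        costE c t (zrow X O a b lp) (zrow X O a b lq) nb hub = true → c ≤ F.card := by
      intro nb hub k1 k2 k3 k4 k5
      refine costE_sound hb hc ht (zr lp p hlp) (zr lq q hlq) (fun w x y => ?_)
        (fun hh w x => ?_) k3 k4 k5
      · by_contra hw
        exact k1 ⟨big p w x hw, big q w y hw⟩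
      · by_contra hw
        rcases x with x | x
        exacts [(k2 hh).1 (big p w x hw), (k2 hh).2 (big q w x hw)]
    have add1 : ∀ x < 16, x ∉ P →
        (∀ w, (Nat.lor (Nat.lor (brow Y lp) (brow Y lq)) (Nat.shiftLeft 1 x)).testBit w = true →
          w < 16) ∧ ∀ w ∈ P,
        ¬ (Nat.lor (Nat.lor (brow Y lp) (brow Y lq)) (Nat.shiftLeft 1 x)).testBit w = true := by
      intro x hx hP
      refine ⟨fun w h => ?_, fun w hw h => ?_⟩ <;> rw [tb_lor, tb_one] at h <;>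
        rcases h with h | rfl
      exacts [nb16 w h, hx, nbP w hw h, hP hw]
    simp only [pairE, frc_eq, cnd_eq, tb_eq, Bool.or_eq_true, Nat.beq_eq, if_neg unb, Nat.ble_eq,
      ep, eq, op, oq] at h
    by_cases c1 : p = a ∨ p = b <;> by_cases c2 : q = a ∨ q = b
    · rw [if_pos c1, if_pos c2, Nat.blt_eq] at h
      refine absurd (card_le_pc (m := Nat.land (Nat.lor (row X a) (row X b))
        (Nat.xor 65535 (Nat.lor (brow Y lp) (brow Y lq)))) (P := P) (fun i hi => ?_)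
        fun w hw => ?_) (by omega)
      · rcases (tb_lor _ _ _).1 ((tb_land _ _ _).1 hi).1 with h | h <;>
          exact ((tb_row _ _ _).1 h).1
      · have i1 : InT p q P s(a, w) ∧ InT p q P s(b, w) := by
          rcases c1 with rfl | rfl <;> rcases c2 with rfl | rfl
          exacts [absurd rfl hpq, ⟨ip w hw, iq w hw⟩, ⟨iq w hw, ip w hw⟩, absurd rfl hpq]
        have i2 : w ∉ O' := fun h => hE w h i1
        have w16 : w < 16 := by by_contra hh; exact i2 (Or.inl (by omega))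
        have i3 : ¬ O.testBit w = true := fun h => i2 (Or.inr h)
        have wa : w ≠ a ∧ w ≠ b := by
          have := hb.2.1
          have := hb.2.2.1
          constructor <;> rintro rfl <;> rcases c1 with rfl | rfl <;> rcases c2 with rfl | rfl <;>
            contradiction
        have i4 : ¬ (brow Y a).testBit w = true := fun h =>
          (brow_bit h).2.2.elim wa.1 (nY _ i1.1)
        have i5 : ¬ (brow Y b).testBit w = true := fun h =>
          (brow_bit h).2.2.elim wa.2 (nY _ i1.2)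
        rw [Ob] at i3
        rw [tb_land, tb_lor, rx a ha16, rx b hb16, tb_xor, tb_full]
        exact prop2 w16 i3 i4 i5 (nbP w hw)
    · rw [if_pos c1, if_neg c2] at h
      exact cE _ _ (fun k => c2 k.2) (fun k => Bool.noConfusion k) nb16 nbP h
    · rw [if_neg c1, if_pos c2] at h
      exact cE _ _ (fun k => c1 k.1) (fun k => Bool.noConfusion k) nb16 nbP h
    · rw [if_neg c1, if_neg c2] at h
      split_ifs at h with c3
      · rw [an_eq] at h
        by_cases k1 : a ∈ P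
        · have k2 : b ∉ P := fun k2 => by
            rcases c3 with c3 | c3
            · exact hE p c3 ⟨Sym2.eq_swap ▸ ip a k1, Sym2.eq_swap ▸ ip b k2⟩
            · exact hE q c3 ⟨Sym2.eq_swap ▸ iq a k1, Sym2.eq_swap ▸ iq b k2⟩
          exact cE _ _ (fun k => c1 k.1) (fun _ => ⟨c1, c2⟩) (add1 b hb16 k2).1 (add1 b hb16 k2).2 h.2
        · exact cE _ _ (fun k => c1 k.1) (fun _ => ⟨c1, c2⟩) (add1 a ha16 k1).1 (add1 a ha16 k1).2 h.1
      · exact cE _ _ (fun k => c1 k.1) (fun _ => ⟨c1, c2⟩) nb16 nbP h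
  have lab : ∀ p k, 16 ≤ k → ((if p < 16 then p else k) = p ∧ p < 16) ∨
      (16 ≤ (if p < 16 then p else k) ∧ 16 ≤ p) := fun p k hk => by split_ifs <;> omega
  refine safe_of_env (a := a) (b := b) (u := u) (v := v) (O := O') (Z := Z) (by omega) aO bO
    (ES_finite X) dj Set.subset_union_left (fun w hw => ⟨Or.inr ⟨w, hw, Or.inl rfl⟩,
      Or.inr ⟨w, hw, Or.inr rfl⟩, ?_⟩) ?_ (fun F h1 h2 p q P hc hb hE => ?_)
      fun F h1 h2 q P hc hb hE => ?_
  · rcases hw with hw | hw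
    · exact ⟨fun h => absurd (sX.mem.1 h).2.1 (by omega), fun h => absurd (sX.mem.1 h).2.1 (by omega)⟩
    · exact ⟨((Ob w).1 hw).2.1, ((Ob w).1 hw).2.2.1⟩
  · exact book_real (φ := id) (m := 16) (Set.injOn_id _)
      (fun x hx y hy h => ⟨hx, hy, x, hx, y, hy, h, rfl⟩) (by omega) hm
  · have main : ∀ p q, p < q → Book (Z ∪ F) p q P → Excl a b O' p q P → False := by
      intro p q hpq hb hE
      have := key 3 4 p q _ _ F P (lab p 16 le_rfl) (lab q 17 (by omega))
        (by split_ifs <;> omega)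
        (allN_spec (allN_spec hT _ (by split_ifs <;> omega)) _ (by split_ifs <;> omega))
        h2 hc le_rfl hb hE
      omega
    rcases lt_or_gt_of_ne hb.1 with h | h
    · exact main p q h hb hE
    · exact main q p h hb.symm fun w hw k => hE w hw ⟨k.1.symm, k.2.symm⟩
  · have hne := hb.1
    have := key 2 3 v q _ _ F P (Or.inl ⟨rfl, hv⟩) (lab q 16 le_rfl) (by split_ifs <;> omega)
      (allN_spec hP _ (by split_ifs <;> omega)) h2 hc (by omega) hb hE
    omega

end Pool.Agent.Lib.MP_715591_co.K24
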