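import Pool.Agent.Lib.MP_715591_co.Count
import Pool.Agent.Lib.MP_715591_co.Play

/-!
The strong Ramsey game for the complete bipartite graph with parts of size two and four on the countable complete graph:
positions, safe positions for the second player, monotonicity and symmetry.
-/

namespace Pool.Agent.Lib.MP_715591_co.K24

/-- two hubs `p q` joined to all pages `P` inside the edge set `X` -/
def Book (X : Set E) (p q : ℕ) (P : Finset ℕ) : Prop :=
  p ≠ q ∧ p ∉ P ∧ q ∉ P ∧ ∀ w ∈ P, s(p, w) ∈ X ∧ s(q, w) ∈ X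

/-- `X` contains two hubs with four pages -/
def HasH (X : Set E) : Prop := ∃ p q P, P.card = 4 ∧ Book X p q P

/-- `X` contains three pages on the hubs `u v` -/
def Mach (X : Set E) (u v : ℕ) : Prop := ∃ P, P.card = 3 ∧ Book X u v P

theorem Book.mono {X X' : Set E} {p q : ℕ} {P : Finset ℕ} (h : Book X p q P) (hX : X ⊆ X') :
    Book X' p q P :=
  ⟨h.1, h.2.1, h.2.2.1, fun w hw => ⟨hX (h.2.2.2 w hw).1, hX (h.2.2.2 w hw).2⟩⟩

theorem Book.symm {X : Set E} {p q : ℕ} {P : Finset ℕ} (h : Book X p q P) : Book X q p P :=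
  ⟨h.1.symm, h.2.2.1, h.2.1, fun w hw => (h.2.2.2 w hw).symm⟩

theorem HasH.mono {X X' : Set E} (h : HasH X) (hX : X ⊆ X') : HasH X' :=
  let ⟨p, q, P, hc, hb⟩ := h; ⟨p, q, P, hc, hb.mono hX⟩

theorem Mach.mono {X X' : Set E} {u v : ℕ} (h : Mach X u v) (hX : X ⊆ X') : Mach X' u v :=
  let ⟨P, hc, hb⟩ := h; ⟨P, hc, hb.mono hX⟩

/-- the second player, to move, has an answer leading into `S` -/
def Resp (S : Set E → Set E → Prop) (X Y : Set E) : Prop :=
  ¬ HasH X ∧ ∃ f : E, ¬ f.IsDiag ∧ f ∉ X ∧ (HasH (insert f Y) ∨ S X (insert f Y))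

/-- closed families of positions -/
def Closed (S T : Set E → Set E → Prop) : Prop :=
  ∀ X Y, S X Y → X.Finite ∧ ¬ HasH X ∧
    ∀ e : E, ¬ e.IsDiag → e ∉ X → e ∉ Y → Resp T (insert e X) Y

/-- positions (first player to move) from which the first player cannot win -/
def Safe (X Y : Set E) : Prop := ∃ S, Closed S S ∧ S X Y

/-- positions (second player to move) from which the first player cannot win -/
def Good (X Y : Set E) : Prop := Resp Safe X Y

theorem Resp.imp {S T : Set E → Set E → Prop} (h : ∀ X Y, S X Y → T X Y) {X Y : Set E}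
    (hr : Resp S X Y) : Resp T X Y :=
  let ⟨h1, f, h2, h3, h4⟩ := hr; ⟨h1, f, h2, h3, h4.imp_right (h _ _)⟩

theorem closed_safe : Closed Safe Safe := by
  rintro X Y ⟨S, hS, hXY⟩
  obtain ⟨h1, h2, h3⟩ := hS X Y hXY
  exact ⟨h1, h2, fun e a b c => (h3 e a b c).imp fun X Y h => ⟨S, hS, h⟩⟩

theorem Safe.coind {S : Set E → Set E → Prop} (h : Closed S fun X Y => S X Y ∨ Safe X Y)
    {X Y : Set E} (hS : S X Y) : Safe X Y := by
  refine ⟨fun X Y => S X Y ∨ Safe X Y, ?_, Or.inl hS⟩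
  rintro X Y (h1 | h1)
  · exact h X Y h1
  · obtain ⟨a, b, c⟩ := closed_safe X Y h1
    exact ⟨a, b, fun e x y z => (c e x y z).imp fun _ _ => Or.inr⟩

theorem Safe.intro {X Y : Set E} (hf : X.Finite) (hH : ¬ HasH X)
    (h : ∀ e : E, ¬ e.IsDiag → e ∉ X → e ∉ Y → Good (insert e X) Y) : Safe X Y := by
  refine Safe.coind (S := fun A B => A = X ∧ B = Y) ?_ ⟨rfl, rfl⟩
  rintro _ _ ⟨rfl, rfl⟩
  exact ⟨hf, hH, fun e x y z => (h e x y z).imp fun _ _ => Or.inr⟩

theorem Safe.mono {X Y X' Y' : Set E} (h : Safe X' Y') (hX : X ⊆ X') (hY : Y' ⊆ Y) :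
    Safe X Y := by
  refine ⟨fun X Y => ∃ X' Y', Safe X' Y' ∧ X ⊆ X' ∧ Y' ⊆ Y, ?_, X', Y', h, hX, hY⟩
  rintro X Y ⟨X', Y', h, hX, hY⟩
  obtain ⟨a, b, c⟩ := closed_safe X' Y' h
  refine ⟨a.subset hX, fun h => b (h.mono hX), fun e e1 e2 e3 => ?_⟩
  by_cases he : e ∈ X'
  · have hs : insert e X ⊆ X' := Set.insert_subset he hX
    obtain ⟨f, f1, f2⟩ := exists_free (a.subset hs)
    exact ⟨fun h => b (h.mono hs), f, f1, f2,
      Or.inr ⟨X', Y', h, hs, hY.trans (Set.subset_insert _ _)⟩⟩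
  · obtain ⟨g1, f, f1, f2, f3⟩ := c e e1 he fun h => e3 (hY h)
    have hs : insert e X ⊆ insert e X' := Set.insert_subset_insert hX
    refine ⟨fun h => g1 (h.mono hs), f, f1, fun h => f2 (hs h), ?_⟩
    exact f3.imp (fun h => h.mono (Set.insert_subset_insert hY))
      fun h => ⟨_, _, h, hs, Set.insert_subset_insert hY⟩

theorem Good.mono {X Y X' Y' : Set E} (h : Good X' Y') (hX : X ⊆ X') (hY : Y' ⊆ Y) :
    Good X Y := by
  obtain ⟨g1, f, f1, f2, f3⟩ := h
  exact ⟨fun h => g1 (h.mono hX), f, f1, fun h => f2 (hX h),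
    f3.imp (fun h => h.mono (Set.insert_subset_insert hY))
      fun h => h.mono hX (Set.insert_subset_insert hY)⟩

theorem HasH.of_pb {π : ℕ ≃ ℕ} {X : Set E} (h : HasH (pb π X)) : HasH X := by
  obtain ⟨p, q, P, hc, h1, h2, h3, h5⟩ := h
  refine ⟨π p, π q, P.map π.toEmbedding, by simpa using hc, by simpa using h1, by simpa using h2,
    by simpa using h3, fun w hw => ?_⟩
  obtain ⟨x, hx, rfl⟩ := Finset.mem_map.1 hw
  exact h5 x hx

theorem HasH.to_pb (π : ℕ ≃ ℕ) {X : Set E} (h : HasH X) : HasH (pb π X) :=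
  HasH.of_pb (π := π.symm) (by rwa [pb_pb])

theorem Resp.to_pb (π : ℕ ≃ ℕ) {S T : Set E → Set E → Prop}
    (h : ∀ X Y, S X Y → T (pb π X) (pb π Y)) {X Y : Set E} (hr : Resp S X Y) :
    Resp T (pb π X) (pb π Y) := by
  obtain ⟨h1, f, h2, h3, h4⟩ := hr
  refine ⟨fun a => h1 a.of_pb, Sym2.map π.symm f, by rwa [isDiag_map], fun a => h3 ?_, ?_⟩
  · rwa [pb, Set.mem_preimage, map_map_symm] at a
  · rw [← pb_insert, map_map_symm]
    exact h4.imp (HasH.to_pb π) (h _ _)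

theorem Safe.to_pb (π : ℕ ≃ ℕ) {X Y : Set E} (h : Safe X Y) : Safe (pb π X) (pb π Y) := by
  refine ⟨fun A B => ∃ X Y, Safe X Y ∧ A = pb π X ∧ B = pb π Y, ?_, X, Y, h, rfl, rfl⟩
  rintro _ _ ⟨X, Y, h, rfl, rfl⟩
  obtain ⟨a, b, c⟩ := closed_safe X Y h
  refine ⟨a.preimage (Sym2.map.injective π.injective).injOn, fun h => b h.of_pb,
    fun e e1 e2 e3 => ?_⟩
  rw [← pb_insert]
  exact (c _ (by rwa [isDiag_map]) e2 e3).to_pb π fun X Y h => ⟨X, Y, h, rfl, rfl⟩

theorem Good.to_pb (π : ℕ ≃ ℕ) {X Y : Set E} (h : Good X Y) : Good (pb π X) (pb π Y) :=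
  Resp.to_pb π (fun _ _ => Safe.to_pb π) h

/-- it is enough to look at the moves inside `[0, n]` and at the move `n, n + 1` -/
theorem Safe.intro_can {X Y : Set E} (n : ℕ) (hf : X.Finite) (hH : ¬ HasH X)
    (hX : ∀ a b, s(a, b) ∈ X → a < n) (hY : ∀ a b, s(a, b) ∈ Y → a < n)
    (h : ∀ x y, x < y → (y ≤ n ∨ (x = n ∧ y = n + 1)) → s(x, y) ∉ X → s(x, y) ∉ Y →
      Good (insert s(x, y) X) Y) : Safe X Y := by
  have key : ∀ (π : ℕ ≃ ℕ) (Z : Set E), (∀ a b, s(a, b) ∈ Z → a < n) → (∀ a < n, π a = a) →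
      pb π Z = Z := by
    intro π Z hZ hπ
    have h2 : ∀ a, π a < n → π a = a := fun a ha => π.injective (hπ _ ha)
    ext z
    induction z using Sym2.ind with
    | _ a b =>
      rw [mem_pb]
      constructor
      · intro h
        rwa [h2 a (hZ _ _ h), h2 b (hZ _ _ (Sym2.eq_swap ▸ h))] at h
      · intro h
        rwa [hπ a (hZ _ _ h), hπ b (hZ _ _ (Sym2.eq_swap ▸ h))]
  have out : ∀ x y, n ≤ y → s(x, y) ∉ X ∧ s(x, y) ∉ Y := fun x y hy =>
    ⟨fun h => absurd (hX _ _ (Sym2.eq_swap ▸ h)) (by omega),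
      fun h => absurd (hY _ _ (Sym2.eq_swap ▸ h)) (by omega)⟩
  have tr : ∀ (π : ℕ ≃ ℕ) x y, (∀ a < n, π a = a) → Good (insert s(π x, π y) X) Y →
      Good (insert s(x, y) X) Y := by
    intro π x y hπ hg
    have := hg.to_pb π
    rwa [show s(π x, π y) = Sym2.map π s(x, y) from rfl, pb_insert, key π X hX hπ,
      key π Y hY hπ] at this
  have main : ∀ x y, x < y → s(x, y) ∉ X → s(x, y) ∉ Y → Good (insert s(x, y) X) Y := by
    intro x y hxy e2 e3
    by_cases hy : y ≤ n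
    · exact h x y hxy (Or.inl hy) e2 e3
    by_cases hx : x < n
    · refine tr (Equiv.swap y n) x y (fun a ha => Equiv.swap_apply_of_ne_of_ne (by omega) (by omega)) ?_
      rw [Equiv.swap_apply_left, Equiv.swap_apply_of_ne_of_ne (by omega) (by omega)]
      exact h x n hx (Or.inl le_rfl) (out _ _ le_rfl).1 (out _ _ le_rfl).2
    · refine tr ((Equiv.swap x n).trans (Equiv.swap y (n + 1))) x y (fun a ha => ?_) ?_
      · rw [Equiv.trans_apply, Equiv.swap_apply_of_ne_of_ne (a := x) (by omega) (by omega),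
          Equiv.swap_apply_of_ne_of_ne (by omega) (by omega)]
      · rw [Equiv.trans_apply, Equiv.trans_apply, Equiv.swap_apply_left,
          Equiv.swap_apply_of_ne_of_ne (a := x) (by omega) (by omega), Equiv.swap_apply_left,
          Equiv.swap_apply_of_ne_of_ne (by omega) (by omega)]
        exact h n (n + 1) (by omega) (Or.inr ⟨rfl, rfl⟩) (out _ _ (by omega)).1
          (out _ _ (by omega)).2
  refine Safe.intro hf hH fun e e1 e2 e3 => ?_
  induction e using Sym2.ind with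
  | _ x y =>
    rcases lt_trichotomy x y with h | h | h
    · exact main x y h e2 e3
    · exact absurd (Sym2.mk_isDiag_iff.2 h) e1
    · rw [Sym2.eq_swap] at e2 e3 ⊢
      exact main y x h e2 e3

end Pool.Agent.Lib.MP_715591_co.K24
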