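import Pool.Agent.Lib.MP_715591_co.K24.Defs

/-!
Soundness of the deficiency computation.
-/

namespace Pool.Agent.Lib.MP_715591_co.K24

open Classical

theorem take_le {t n0 n1 x y : ℕ} (hx : x ≤ n0) (hy : y ≤ n1) (h : x + y ≤ t) :
    take t n0 n1 + 2 * x + y ≤ 2 * t := by
  simp only [take, frc_eq, Nat.add_eq, Nat.sub_eq]; omega

/-- inclusion of bit sets -/
def Sub (a b : ℕ) : Prop := ∀ i, a.testBit i = true → b.testBit i = true

theorem Sub.rfl {a : ℕ} : Sub a a := fun _ h => h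
theorem Sub.trans {a b c : ℕ} (h : Sub a b) (k : Sub b c) : Sub a c := fun i hi => k i (h i hi)

theorem flag_bit : flag.testBit 320 = true := (tb_one _ _).2 rfl

set_option exponentiation.threshold 400 in
theorem no_flag {K : ℕ} (h : Nat.blt K flag = true) : ¬ K.testBit 320 = true := fun hh => by
  rw [Nat.blt_eq, flag, Nat.shiftLeft_eq', Nat.one_shiftLeft] at h
  exact lt_irrefl _ (bits_of_lt h hh)

/-- a row describes a vertex -/
structure RowOK (X Y : Set E) (m p : ℕ) (r : Row) : Prop where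
  ha : ∀ w, s(p, w) ∈ X ↔ r.a.testBit w = true
  a16 : ∀ w, r.a.testBit w = true → w < 16
  hb : ∀ w, r.bb.testBit w = true → w < 16 ∧ (w = p ∨ s(p, w) ∈ Y)
  hd : r.d = pc r.a
  lab : r.i = p ∨ (16 ≤ r.i ∧ r.a = 0 ∧ m ≤ p)

theorem pairT_acc (c t : ℕ) (r s : Row) (acc : ℕ) : Sub acc (pairT c t r s acc) := by
  intro i hi
  simp only [pairT, cnd_eq, frc_eq]
  split_ifs <;> first | exact hi | exact (tb_lor _ _ _).2 (Or.inr hi)

theorem deg_count {X : Set E} {p q : ℕ} (P : Finset ℕ) :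
    2 * (P.filter fun w => s(p, w) ∈ X ∧ s(q, w) ∈ X).card
      + (P.filter fun w => ¬ (s(p, w) ∈ X ↔ s(q, w) ∈ X)).card
      = (P.filter fun w => s(p, w) ∈ X).card + (P.filter fun w => s(q, w) ∈ X).card := by
  simp only [Finset.card_filter, Finset.mul_sum, ← Finset.sum_add_distrib]
  refine Finset.sum_congr rfl fun w _ => ?_
  by_cases h1 : s(p, w) ∈ X <;> by_cases h2 : s(q, w) ∈ X <;> simp [h1, h2]

theorem pairT_sound {X Y : Set E} {m p q c t acc : ℕ} {r s : Row} {F : Finset E} {P : Finset ℕ}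
    (hm : m ≤ 16) (hr : RowOK X Y m p r) (hs : RowOK X Y m q s) (unb : r.i ≠ s.i)
    (hb : Book (X ∪ F) p q P)
    (hc : P.card = t) (hF : ∀ e ∈ F, e ∉ Y) (hX : ∀ e ∈ X, e ∉ Y)
    (hK : ¬ (pairT c t r s acc).testBit 320 = true) :
    c ≤ F.card ∧ (F.card ≤ c → ∀ x y, x < y → y < m → InT p q P s(x, y) → s(x, y) ∉ X →
      (pairT c t r s acc).testBit (16 * x + y) = true) := by
  have nY : ∀ e, InT p q P e → e ∉ Y := fun e he => by
    rcases hb.inT he with h | h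
    exacts [hX e h, hF e h]
  have mc := miss_count hb
  have sc := split_count (X := X) (p := p) (q := q) P
  have dc := deg_count (X := X) (p := p) (q := q) P
  rw [hc] at mc sc
  set x0 := (P.filter fun w => s(p, w) ∈ X ∧ s(q, w) ∈ X).card with hx0
  set y0 := (P.filter fun w => ¬ (s(p, w) ∈ X ↔ s(q, w) ∈ X)).card with hy0
  have okb : ∀ w ∈ P, w < 16 → (Nat.xor 65535 (Nat.lor r.bb s.bb)).testBit w = true := by
    intro w hw h16
    rw [tb_xor, tb_full, tb_lor]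
    intro h
    rcases h.1 h16 with a | a
    · rcases (hr.hb _ a).2 with a | a
      exacts [hb.2.1 (a ▸ hw), nY _ ⟨w, hw, Or.inl rfl⟩ a]
    · rcases (hs.hb _ a).2 with a | a
      exacts [hb.2.2.1 (a ▸ hw), nY _ ⟨w, hw, Or.inr rfl⟩ a]
  have m1b : ∀ w ∈ P, ¬ (s(p, w) ∈ X ↔ s(q, w) ∈ X) →
      (Nat.land (Nat.xor r.a s.a) (Nat.xor 65535 (Nat.lor r.bb s.bb))).testBit w = true := by
    intro w hw h
    rw [hr.ha, hs.ha] at h
    refine (tb_land _ _ _).2 ⟨(tb_xor _ _ _).2 h, okb w hw ?_⟩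
    by_contra h16
    exact h ⟨fun a => absurd (hr.a16 _ a) h16, fun a => absurd (hs.a16 _ a) h16⟩
  have b0 : x0 ≤ pc (Nat.land r.a s.a) :=
    card_le_pc (fun i hi => hr.a16 _ ((tb_land _ _ _).1 hi).1) fun w hw =>
      have := (Finset.mem_filter.1 hw).2
      (tb_land _ _ _).2 ⟨(hr.ha _).1 this.1, (hs.ha _).1 this.2⟩
  have b1 : y0 ≤ pc (Nat.land (Nat.xor r.a s.a) (Nat.xor 65535 (Nat.lor r.bb s.bb))) := by
    refine card_le_pc (fun i hi => ?_) fun w hw =>
      m1b w (Finset.mem_filter.1 hw).1 (Finset.mem_filter.1 hw).2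
    by_contra h16
    exact (tb_xor _ _ _).1 ((tb_land _ _ _).1 hi).1
      ⟨fun a => absurd (hr.a16 _ a) h16, fun a => absurd (hs.a16 _ a) h16⟩
  have d1 : (P.filter fun w => s(p, w) ∈ X).card ≤ r.d := by
    rw [hr.hd]
    exact card_le_pc hr.a16 fun w hw => (hr.ha _).1 (Finset.mem_filter.1 hw).2
  have d2 : (P.filter fun w => s(q, w) ∈ X).card ≤ s.d := by
    rw [hs.hd]
    exact card_le_pc hs.a16 fun w hw => (hs.ha _).1 (Finset.mem_filter.1 hw).2
  have tk := take_le b0 b1 (t := t) (by omega)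
  simp only [pairT, cnd_eq, frc_eq, Nat.blt_eq, Nat.ble_eq, Nat.beq_eq, if_neg unb, Nat.add_eq,
    Nat.mul_eq] at hK ⊢
  by_cases c1 : r.d + s.d + c < 2 * t
  · have : c + 1 ≤ F.card := by omega
    exact ⟨by omega, fun h => by omega⟩
  rw [if_neg c1] at hK ⊢
  set n0 := pc (Nat.land r.a s.a)
  set m1 := Nat.land (Nat.xor r.a s.a) (Nat.xor 65535 (Nat.lor r.bb s.bb))
  set ok := Nat.xor 65535 (Nat.lor r.bb s.bb)
  by_cases c2 : take t n0 (pc m1) ≤ c
  swap
  · exact ⟨by omega, fun h => by omega⟩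
  rw [if_pos c2] at hK ⊢
  by_cases c3 : take t n0 (pc m1) = c
  swap
  · rw [if_neg c3] at hK
    exact absurd ((tb_lor _ _ _).2 (Or.inl flag_bit)) hK
  rw [if_pos c3]
  refine ⟨by omega, fun hle x y hxy hy hT hn => (tb_lor _ _ _).2 (Or.inl ?_)⟩
  have li : ∀ {z : ℕ} {ρ : Row}, RowOK X Y m z ρ → z < m → ρ.i = z := fun h hz =>
    h.lab.resolve_right fun a => by omega
  have two : ∀ w ∈ P, s(p, w) ∉ X → s(q, w) ∉ X → 2 + take (t - 1) n0 (pc m1) ≤ c := by
    intro w hw h1 h2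
    have : 0 < (P.filter fun w => s(p, w) ∉ X ∧ s(q, w) ∉ X).card :=
      Finset.card_pos.2 ⟨w, Finset.mem_filter.2 ⟨hw, h1, h2⟩⟩
    have := take_le b0 b1 (t := t - 1) (by omega)
    omega
  simp only [critM, tb_lor, cnd_eq, Nat.ble_eq, Nat.add_eq, Nat.sub_eq]
  rcases hT with ⟨w, hw, e | e⟩
  · have := Sym2.eq_iff.1 e
    rw [e] at hn
    rw [li hr (by omega)]
    by_cases h2 : s(q, w) ∈ X
    · exact Or.inl (Or.inr (tb_rowcol ((tb_land _ _ _).2
        ⟨m1b w hw (fun a => hn (a.2 h2)), (hs.ha _).1 h2⟩) hxy (by omega) e))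
    · rw [if_pos (two w hw hn h2), tb_lor]
      exact Or.inr (Or.inl (tb_rowcol (okb w hw (by omega)) hxy (by omega) e))
  · have := Sym2.eq_iff.1 e
    rw [e] at hn
    rw [li hs (by omega)]
    by_cases h2 : s(p, w) ∈ X
    · exact Or.inl (Or.inl (tb_rowcol ((tb_land _ _ _).2
        ⟨m1b w hw (fun a => hn (a.1 h2)), (hr.ha _).1 h2⟩) hxy (by omega) e))
    · rw [if_pos (two w hw h2 hn), tb_lor]
      exact Or.inr (Or.inr (tb_rowcol (okb w hw (by omega)) hxy (by omega) e))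

theorem critR_acc (c t : ℕ) (r : Row) (l : List Row) (acc : ℕ) : Sub acc (critR c t r l acc) := by
  induction l with
  | nil => exact Sub.rfl
  | cons s l ih => exact ih.trans (pairT_acc c t r s _)

theorem critR_mem (c t : ℕ) (r : Row) {l : List Row} (acc : ℕ) {s : Row} (hs : s ∈ l) :
    ∃ z, Sub (pairT c t r s z) (critR c t r l acc) := by
  induction l with
  | nil => simp at hs
  | cons s' l ih =>
    rcases List.mem_cons.1 hs with rfl | hs
    · exact ⟨_, Sub.rfl⟩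
    · obtain ⟨z, hz⟩ := ih hs
      exact ⟨z, hz.trans (pairT_acc c t r s' _)⟩

theorem critT_pw (c : ℕ) (l : List Row) (K : ℕ) (hK : Sub (critT c l) K) :
    l.Pairwise fun r s => ∃ z, Sub (pairT c 4 r s z) K := by
  induction l with
  | nil => exact List.Pairwise.nil
  | cons r l ih =>
    refine List.Pairwise.cons (fun s hs => ?_) (ih ((critR_acc c 4 r l _).trans hK))
    obtain ⟨z, hz⟩ := critR_mem c 4 r (critT c l) hs
    exact ⟨z, hz.trans hK⟩

/-- the row of a vertex -/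
noncomputable def rw0 (X Y i : ℕ) : Row :=
  ⟨i, row X i, Nat.lor (row Y i) (Nat.shiftLeft 1 i), pc (row X i)⟩

theorem mkRow_eq {α : Type} (X Y i : ℕ) (k : Row → α) : mkRow X Y i k = k (rw0 X Y i) := by
  simp only [mkRow, frc_eq, rw0]

theorem rowsK_eq {α : Type} (X Y m : ℕ) (k : List Row → α) (l : List Row) :
    rowsK X Y m k l = k ((List.range m).map (rw0 X Y) ++ l) := by
  induction m generalizing l with
  | zero => rfl
  | succ m ih =>
    have : rowsK X Y (m + 1) k l = mkRow X Y m fun r => rowsK X Y m k (r :: l) := rfl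
    rw [this, mkRow_eq, ih, List.range_succ, List.map_append, List.append_assoc]
    rfl

theorem rw0_ok {X Y : ℕ} (hX : Sy X) (m : ℕ) {p : ℕ} (hp : p < 16) :
    RowOK (ES X) (ES Y) m p (rw0 X Y p) where
  ha w := by rw [hX.mem, rw0, tb_row]; tauto
  a16 w h := ((tb_row _ _ _).1 h).1
  hb w h := by
    rcases (tb_lor _ _ _).1 h with h | h
    · rw [tb_row] at h
      exact ⟨h.1, Or.inr ⟨p, hp, w, h.1, h.2, rfl⟩⟩
    · rw [tb_one] at h
      exact ⟨h ▸ hp, Or.inl h⟩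
  hd := rfl
  lab := Or.inl rfl

theorem dummy_ok {X Y : Set E} {m p i : ℕ} (hX : ∀ a b, s(a, b) ∈ X → a < m) (hp : m ≤ p)
    (hi : 16 ≤ i) : RowOK X Y m p ⟨i, 0, 0, 0⟩ where
  ha w := ⟨fun h => absurd (hX _ _ h) (by omega), fun h => by simp at h⟩
  a16 w h := by simp at h
  hb w h := by simp at h
  hd := (by decide +kernel : 0 = pc 0)
  lab := Or.inr ⟨hi, rfl, hp⟩

/-- the list of rows of a node -/
noncomputable def RL (X Y m : ℕ) : List Row :=
  (List.range m).map (rw0 X Y) ++ [⟨16, 0, 0, 0⟩, ⟨17, 0, 0, 0⟩]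

theorem InT.symm {p q : ℕ} {P : Finset ℕ} {e : E} (h : InT p q P e) : InT q p P e := by
  obtain ⟨w, hw, h⟩ := h
  exact ⟨w, hw, h.symm⟩

theorem after_move {X Y : Set E} {c p q : ℕ} {P : Finset ℕ} {F : Finset E} {e : E} {b : Prop}
    (h : ∀ F : Finset E, (∀ e ∈ F, e ∉ Y) → Book (X ∪ F) p q P →
      c ≤ F.card ∧ (F.card ≤ c → InT p q P e → e ∉ X → b))
    (h1 : F.card < c) (h2 : ∀ e ∈ F, e ∉ Y) (he : e ∉ Y) (hb : Book (insert e X ∪ F) p q P) : b := by
  by_cases hh : InT p q P e ∧ e ∉ X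
  · rw [ins_union] at hb
    refine (h _ (fun z hz => ?_) hb).2 (by have := Finset.card_insert_le e F; omega) hh.1 hh.2
    rcases Finset.mem_insert.1 hz with rfl | hz
    exacts [he, h2 z hz]
  · refine absurd (h F h2 (hb.of_inT ?_)).1 (by omega)
    rintro z hz ((rfl | a) | a)
    exacts [Or.inl (by tauto), Or.inl a, Or.inr a]

theorem thr_sound {X Y m c K : ℕ} (hm : m ≤ 16) (sX : Sy X)
    (hX : ∀ a b, s(a, b) ∈ ES X → a < m) (hd : ∀ e ∈ ES X, e ∉ ES Y)
    (hK : Sub (critT c (RL X Y m)) K) (hf : ¬ K.testBit 320 = true) :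
    Thr (ES X) (ES Y) c ∧ ∀ x y, x < y → y < m → s(x, y) ∉ ES Y →
      ¬ K.testBit (16 * x + y) = true → Thr (insert s(x, y) (ES X)) (ES Y) c := by
  have pw := critT_pw c _ K hK
  rw [RL, List.pairwise_append, List.pairwise_map] at pw
  have ex : ∀ p q, p < q → ∃ r s z, RowOK (ES X) (ES Y) m p r ∧ RowOK (ES X) (ES Y) m q s ∧
      r.i ≠ s.i ∧ Sub (pairT c 4 r s z) K := by
    intro p q hpq
    by_cases hq : q < m
    · have := List.pairwise_iff_getElem.1 pw.1 p q (by simp; omega) (by simpa using hq) hpq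
      simp only [List.getElem_range] at this
      obtain ⟨z, hz⟩ := this
      exact ⟨_, _, z, rw0_ok sX m (by omega), rw0_ok sX m (by omega), hpq.ne, hz⟩
    by_cases hp : p < m
    · obtain ⟨z, hz⟩ := pw.2.2 (rw0 X Y p) (List.mem_map.2 ⟨p, List.mem_range.2 hp, rfl⟩)
        ⟨16, 0, 0, 0⟩ (by simp)
      exact ⟨_, _, z, rw0_ok sX m (by omega), dummy_ok hX (by omega) le_rfl,
        (show p ≠ 16 by omega), hz⟩
    · obtain ⟨z, hz⟩ := (List.pairwise_cons.1 pw.2.1).1 ⟨17, 0, 0, 0⟩ (by simp)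
      exact ⟨_, _, z, dummy_ok hX (by omega) le_rfl, dummy_ok hX (by omega) (by omega),
        (show 16 ≠ 17 by omega), hz⟩
  have key : ∀ p q (P : Finset ℕ), P.card = 4 → ∀ F : Finset E, (∀ e ∈ F, e ∉ ES Y) →
      Book (ES X ∪ F) p q P → c ≤ F.card ∧ (F.card ≤ c → ∀ x y, x < y → y < m →
        InT p q P s(x, y) → s(x, y) ∉ ES X → K.testBit (16 * x + y) = true) := by
    intro p q P hc F hF hb
    rcases lt_or_gt_of_ne hb.1 with h | h
    · obtain ⟨r, s, z, h1, h2, h4, h3⟩ := ex p q h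
      have := pairT_sound hm h1 h2 h4 hb hc hF hd fun a => hf (h3 _ a)
      exact ⟨this.1, fun a x y b c d e => h3 _ (this.2 a x y b c d e)⟩
    · obtain ⟨r, s, z, h1, h2, h4, h3⟩ := ex q p h
      have := pairT_sound hm h1 h2 h4 hb.symm hc hF hd fun a => hf (h3 _ a)
      exact ⟨this.1, fun a x y b c d e => h3 _ (this.2 a x y b c d.symm e)⟩
  refine ⟨fun F h1 h2 ⟨p, q, P, hc, hb⟩ => absurd (key p q P hc F h2 hb).1 (by omega), ?_⟩
  rintro x y hxy hy he hn F h1 h2 ⟨p, q, P, hc, hb⟩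
  exact hn (after_move (fun F a b => (key p q P hc F a b).imp_right fun k u => k u x y hxy hy)
    h1 h2 he hb)

theorem pi_sound {X Y m c K v z : ℕ} (hm : m ≤ 16) (hv : v < 16) (sX : Sy X)
    (hX : ∀ a b, s(a, b) ∈ ES X → a < m) (hd : ∀ e ∈ ES X, e ∉ ES Y)
    (hK : Sub (critR c 3 (rw0 X Y v) (RL X Y m) z) K) (hf : ¬ K.testBit 320 = true)
    {x y : ℕ} (hxy : x < y) (hy : y < m) (he : s(x, y) ∉ ES Y)
    (hn : ¬ K.testBit (16 * x + y) = true) : Pi (insert s(x, y) (ES X)) (ES Y) v c := by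
  rintro F h1 h2 q ⟨P, hc, hb⟩
  obtain ⟨s, hs, ok, ne⟩ : ∃ s ∈ RL X Y m, RowOK (ES X) (ES Y) m q s ∧ v ≠ s.i := by
    by_cases hq : q < m
    · exact ⟨rw0 X Y q, List.mem_append_left _ (List.mem_map.2 ⟨q, List.mem_range.2 hq, rfl⟩),
        rw0_ok sX m (by omega), hb.1⟩
    · exact ⟨⟨16, 0, 0, 0⟩, by simp [RL], dummy_ok hX (by omega) le_rfl, (show v ≠ 16 by omega)⟩
  obtain ⟨u, hu⟩ := critR_mem c 3 (rw0 X Y v) z hs
  refine hn (after_move (fun F a b => ?_) h1 h2 he hb)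
  have := pairT_sound hm (rw0_ok sX m hv) ok ne b hc a hd fun a => hf (hK _ (hu _ a))
  exact ⟨this.1, fun a d e => hK _ (hu _ (this.2 a x y hxy hy d e))⟩

theorem critS_spec (X Y : ℕ) (R : List Row) (c ψ f code acc : ℕ) :
    Sub acc (critS X Y R c ψ f code acc) ∧ ∀ z ∈ dl 8 f code,
      ∃ u, Sub (critR c 3 (rw0 X Y (nib ψ z.1)) R u) (critS X Y R c ψ f code acc) := by
  induction f generalizing code with
  | zero => exact ⟨Sub.rfl, fun z hz => by simp [dl] at hz⟩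
  | succ f ih =>
    have : critS X Y R c ψ (f + 1) code acc = cnd (Nat.beq code 0) acc
      (frc (nib ψ (Nat.land code 15)) fun v => mkRow X Y v fun r =>
        critR c 3 r R (frc (Nat.shiftRight code 8) fun z => critS X Y R c ψ f z acc)) := rfl
    rw [this, dl]
    simp only [cnd_eq, frc_eq, mkRow_eq, Nat.beq_eq]
    split_ifs
    · exact ⟨Sub.rfl, fun z hz => by simp at hz⟩
    · refine ⟨(ih _).1.trans (critR_acc _ _ _ _ _), fun z hz => ?_⟩
      rcases List.mem_cons.1 hz with rfl | hz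
      · exact ⟨_, Sub.rfl⟩
      · obtain ⟨u, hu⟩ := (ih _).2 z hz
        exact ⟨u, hu.trans (critR_acc _ _ _ _ _)⟩

end Pool.Agent.Lib.MP_715591_co.K24
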