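import Pool.Agent.Lib.MP_715591_co.K24.Game

/-!
From safe positions to a play that the first player does not win.
-/

namespace Pool.Agent.Lib.MP_715591_co.K24

open Classical

theorem exists_answer (X Y : Set E) : ∃ f : E, X.Finite → Y.Finite → ¬ f.IsDiag ∧ f ∉ X ∧ f ∉ Y ∧
    (HasH Y ∨ Good X Y → HasH (insert f Y) ∨ Safe X (insert f Y)) := by
  by_cases hf : X.Finite ∧ Y.Finite
  swap
  · exact ⟨s(0, 0), fun a b => absurd ⟨a, b⟩ hf⟩
  obtain ⟨g, g1, g2⟩ := exists_free (hf.1.union hf.2)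
  have g3 : g ∉ X := fun h => g2 (Or.inl h)
  have g4 : g ∉ Y := fun h => g2 (Or.inr h)
  by_cases hG : Good X Y
  · obtain ⟨-, f, f1, f2, f3⟩ := hG
    by_cases hY : f ∈ Y
    · rw [Set.insert_eq_of_mem hY] at f3
      exact ⟨g, fun _ _ => ⟨g1, g3, g4, fun _ => f3.imp (fun h => h.mono (Set.subset_insert _ _))
        fun h => h.mono subset_rfl (Set.subset_insert _ _)⟩⟩
    · exact ⟨f, fun _ _ => ⟨f1, f2, hY, fun _ => f3⟩⟩
  · exact ⟨g, fun _ _ => ⟨g1, g3, g4,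
      fun h => Or.inl ((h.resolve_right hG).mono (Set.subset_insert _ _))⟩⟩

theorem no_win (h0 : Safe ∅ ∅) (σ : List E → E) : ∃ m : ℕ → E,
    (∀ n, m (2 * n) = σ ((List.range (2 * n)).map m)) ∧
    (∀ n, ¬ (m (2 * n + 1)).IsDiag ∧ ∀ i, i < 2 * n + 1 → m i ≠ m (2 * n + 1)) ∧
    ∀ N, (∀ j, j ≤ N → Even j → ¬ (m j).IsDiag ∧ ∀ i, i < j → m i ≠ m j) →
      HasH (part m 0 (N + 1)) → HasH (part m 1 N) := by
  choose τ hτ using exists_answer
  obtain ⟨m, h1, h2⟩ := exists_play σ τ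
  have ans := fun n => hτ _ _ (part_finite m 0 (2 * n + 1)) (part_finite m 1 (2 * n + 1))
  simp only [← h2] at ans
  refine ⟨m, h1, fun n => ⟨(ans n).1, fun i hi e => ?_⟩, fun N hN hH => ?_⟩
  · rcases Nat.mod_two_eq_zero_or_one i with h | h
    exacts [(ans n).2.1 ⟨i, hi, h, e⟩, (ans n).2.2.1 ⟨i, hi, h, e⟩]
  have step : ∀ n, 2 * n ≤ N → Safe (part m 0 (2 * n)) (part m 1 (2 * n)) →
      Good (part m 0 (2 * n + 1)) (part m 1 (2 * n + 1)) := by
    intro n hn hs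
    obtain ⟨a, b⟩ := hN (2 * n) hn (even_two_mul n)
    rw [part_hit m (by omega), part_miss m (by omega)]
    exact (closed_safe _ _ hs).2.2 _ a (fun ⟨i, hi, _, e⟩ => b i hi e) fun ⟨i, hi, _, e⟩ => b i hi e
  have inv : ∀ n, 2 * n ≤ N → HasH (part m 1 (2 * n)) ∨
      Safe (part m 0 (2 * n)) (part m 1 (2 * n)) := by
    intro n
    induction n with
    | zero =>
      intro _
      refine Or.inr (h0.mono ?_ (Set.empty_subset _))
      rintro _ ⟨i, hi, -⟩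
      omega
    | succ n ih =>
      intro hn
      rw [show 2 * (n + 1) = 2 * n + 1 + 1 by ring, part_hit m (r := 1) (by omega),
        part_miss m (r := 0) (by omega)]
      refine (ans n).2.2.2 ((ih (by omega)).imp (fun h => ?_) (step n (by omega)))
      rwa [part_miss m (by omega)]
  rcases inv (N / 2) (by omega) with h | h
  · refine h.mono ?_
    rintro _ ⟨i, hi, a, rfl⟩
    exact ⟨i, by omega, a, rfl⟩
  · refine absurd (hH.mono ?_) (step _ (by omega) h).1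
    rintro _ ⟨i, hi, a, rfl⟩
    exact ⟨i, by omega, a, rfl⟩

theorem hasH_iff {H : SimpleGraph (Fin 6)}
    (hH : ∀ a b, H.Adj a b ↔ (a.val < 2 ∧ 2 ≤ b.val) ∨ (2 ≤ a.val ∧ b.val < 2)) (X : Set E) :
    HasH X ↔ ∃ f : Fin 6 → ℕ, Function.Injective f ∧ ∀ a b, H.Adj a b → s(f a, f b) ∈ X := by
  constructor
  · rintro ⟨p, q, P, hc, h1, h2, h3, h5⟩
    obtain ⟨a, Q, ha, rfl, hQ⟩ := Finset.card_eq_succ.1 hc
    obtain ⟨b, c, d, n1, n2, n3, rfl⟩ := Finset.card_eq_three.1 hQ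
    simp only [Finset.mem_insert, Finset.mem_singleton, not_or, forall_eq_or_imp, forall_eq]
      at ha h2 h3 h5
    refine ⟨![p, q, a, b, c, d], fun x y => ?_, fun x y hxy => ?_⟩
    · fin_cases x <;> fin_cases y <;> simp <;> omega
    · rw [hH] at hxy
      obtain ⟨⟨e1, e2⟩, ⟨e3, e4⟩, ⟨e5, e6⟩, e7, e8⟩ := h5
      fin_cases x <;> fin_cases y <;> simp at hxy <;>
        first | assumption | (rw [Sym2.eq_swap]; assumption)
  · rintro ⟨f, hf, h⟩
    refine ⟨f 0, f 1, ({2, 3, 4, 5} : Finset (Fin 6)).map ⟨f, hf⟩, by rw [Finset.card_map]; rfl,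
      fun e => absurd (hf e) (by decide), fun e => ?_, fun e => ?_, fun w hw => ?_⟩
    · obtain ⟨x, hx, e⟩ := Finset.mem_map.1 e
      rw [hf e] at hx
      exact absurd hx (by decide)
    · obtain ⟨x, hx, e⟩ := Finset.mem_map.1 e
      rw [hf e] at hx
      exact absurd hx (by decide)
    · obtain ⟨x, hx, rfl⟩ := Finset.mem_map.1 hw
      have hx2 : 2 ≤ x.val :=
        (by decide : ∀ x ∈ ({2, 3, 4, 5} : Finset (Fin 6)), 2 ≤ x.val) x hx
      exact ⟨h _ _ ((hH _ _).2 (Or.inl ⟨by decide, hx2⟩)), h _ _ ((hH _ _).2 (Or.inl ⟨by decide, hx2⟩))⟩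

end Pool.Agent.Lib.MP_715591_co.K24
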