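import Pool.Agent.Lib.MP_715591_co.K24.Game

/-!
Static criteria: deficiency of the first player, the endless threats of the second player,
and the positions where both players can threaten for ever.
-/

namespace Pool.Agent.Lib.MP_715591_co.K24

open Classical

/-- the first player misses at least `c` edges for two hubs with four pages -/
def Thr (X Y : Set E) (c : ℕ) : Prop :=
  ∀ F : Finset E, F.card < c → (∀ e ∈ F, e ∉ Y) → ¬ HasH (X ∪ F)

/-- the first player misses at least `c` edges for three pages with `v` as a hub -/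
def Pi (X Y : Set E) (v c : ℕ) : Prop :=
  ∀ F : Finset E, F.card < c → (∀ e ∈ F, e ∉ Y) → ∀ y, ¬ Mach (X ∪ F) v y

theorem Thr.noH {X Y : Set E} {c : ℕ} (h : Thr X Y c) (hc : 1 ≤ c) : ¬ HasH X := by
  simpa using h ∅ (by simp; omega) (by simp)

theorem Thr.mono {X Y Y' : Set E} {c c' : ℕ} (h : Thr X Y c) (hc : c' ≤ c) (hY : Y ⊆ Y') :
    Thr X Y' c' := fun F h1 h2 => h F (by omega) fun e he hy => h2 e he (hY hy)

theorem Pi.mono {X Y Y' : Set E} {v c c' : ℕ} (h : Pi X Y v c) (hc : c' ≤ c) (hY : Y ⊆ Y') :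
    Pi X Y' v c' := fun F h1 h2 => h F (by omega) fun e he hy => h2 e he (hY hy)

theorem Thr.step {X Y : Set E} {c c' : ℕ} {e : E} (h : Thr X Y c) (hc : c' + 1 ≤ c)
    (he : e ∉ Y) : Thr (insert e X) Y c' := by
  intro F h1 h2
  rw [ins_union]
  refine h _ (by have := Finset.card_insert_le e F; omega) fun z hz => ?_
  rcases Finset.mem_insert.1 hz with rfl | hz
  exacts [he, h2 z hz]

theorem Pi.step {X Y : Set E} {v c c' : ℕ} {e : E} (h : Pi X Y v c) (hc : c' + 1 ≤ c)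
    (he : e ∉ Y) : Pi (insert e X) Y v c' := by
  intro F h1 h2
  rw [ins_union]
  refine h _ (by have := Finset.card_insert_le e F; omega) fun z hz => ?_
  rcases Finset.mem_insert.1 hz with rfl | hz
  exacts [he, h2 z hz]

theorem Book.erase {Z X : Set E} {p q w : ℕ} {P : Finset ℕ} (h : Book Z p q P)
    (hZ : ∀ a b, a ≠ w → b ≠ w → s(a, b) ∈ Z → s(a, b) ∈ X) (hp : p ≠ w) (hq : q ≠ w) :
    Book X p q (P.erase w) :=
  ⟨h.1, fun a => h.2.1 (Finset.mem_of_mem_erase a), fun a => h.2.2.1 (Finset.mem_of_mem_erase a),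
    fun x hx =>
      have := h.2.2.2 x (Finset.mem_of_mem_erase hx)
      ⟨hZ _ _ hp (Finset.ne_of_mem_erase hx) this.1, hZ _ _ hq (Finset.ne_of_mem_erase hx) this.2⟩⟩

theorem hub_card {X : Set E} {F : Finset E} {v w q : ℕ} {P : Finset ℕ} (hw : ∀ a, s(w, a) ∉ X)
    (h : Book (insert s(v, w) X ∪ F) w q P) : P.card ≤ F.card + 1 := by
  have : (P.erase v).card ≤ F.card := by
    refine Finset.card_le_card_of_injOn (fun x => s(w, x)) (fun x hx => ?_) fun x _ y _ hxy => ?_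
    · have hx' := Finset.mem_erase.1 hx
      rcases (h.2.2.2 x hx'.2).1 with (a | a) | a
      · rcases Sym2.eq_iff.1 a with a | a
        · exact absurd hx'.2 (a.2 ▸ h.2.1)
        · exact absurd a.2 hx'.1
      · exact absurd a (hw x)
      · exact a
    · exact Sym2.congr_right.1 hxy
  have := Finset.pred_card_le_card_erase (s := P) (a := v)
  omega

theorem Pi.pend {X Y : Set E} {v w : ℕ} (hw : ∀ a, s(w, a) ∉ X) (hv : v ≠ w) (h : Pi X Y v 1) :
    Pi (insert s(v, w) X) Y v 1 := by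
  rintro F h1 h2 y ⟨P, hc, hb⟩
  by_cases hy : y = w
  · subst hy; have := hub_card hw hb.symm; omega
  by_cases hP : w ∈ P
  · rcases (hb.2.2.2 w hP).2 with (a | a) | a
    · rcases Sym2.eq_iff.1 a with a | a
      exacts [hb.1 a.1.symm, hy a.1]
    · exact hw y (Sym2.eq_swap ▸ a)
    · rw [Finset.card_eq_zero.1 (by omega : F.card = 0)] at a; simp at a
  · have := hb.erase (fun a b => off_pend) hv hy
    rw [Finset.erase_eq_of_notMem hP] at this
    exact h F h1 h2 y ⟨P, hc, this⟩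

theorem Thr.pend {X Y : Set E} {v w : ℕ} (hw : ∀ a, s(w, a) ∉ X) (h : Thr X Y 2)
    (hv : Pi X Y v 1) : Thr (insert s(v, w) X) Y 2 := by
  rintro F h1 h2 ⟨p, q, P, hc, hb⟩
  by_cases hp : p = w
  · subst hp; have := hub_card hw hb; omega
  by_cases hq : q = w
  · subst hq; have := hub_card hw hb.symm; omega
  by_cases hP : w ∈ P
  · have one : ∀ x ∈ F, ∀ y ∈ F, x = y := Finset.card_le_one.1 (by omega)
    have aux : ∀ p q, Book (insert s(v, w) X ∪ F) p q P → p ≠ w → q ≠ w → s(q, w) ∈ F → p = v →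
        False := by
      intro p q hb hp hq hF hpv
      subst hpv
      refine hv ∅ (by simp) (by simp) q ⟨P.erase w, by rw [Finset.card_erase_of_mem hP, hc], ?_⟩
      refine hb.erase (fun a b ha hb' h => ?_) hp hq
      rcases off_pend ha hb' h with h | h
      · exact Or.inl h
      · rcases Sym2.eq_iff.1 (one _ h _ hF) with h | h
        exacts [absurd h.2 hb', absurd h.1 ha]
    have cls : ∀ p, p ≠ w → s(p, w) ∈ insert s(v, w) X ∪ (F : Set E) → p = v ∨ s(p, w) ∈ F := by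
      rintro p hp ((a | a) | a)
      · rcases Sym2.eq_iff.1 a with a | a
        exacts [Or.inl a.1, absurd a.1 hp]
      · exact absurd (Sym2.eq_swap ▸ a) (hw p)
      · exact Or.inr a
    rcases cls p hp (hb.2.2.2 w hP).1 with a | a <;>
      rcases cls q hq (hb.2.2.2 w hP).2 with b | b
    · exact hb.1 (a.trans b.symm)
    · exact aux p q hb hp hq b a
    · exact aux q p hb.symm hq hp a b
    · exact hb.1 (Sym2.congr_left.1 (one _ a _ b))
  · have := hb.erase (fun a b => off_pend) hp hq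
    rw [Finset.erase_eq_of_notMem hP] at this
    exact h F h1 h2 ⟨p, q, P, hc, this⟩

/-- the endless sequence of threats -/
theorem good_of_mach {u v : ℕ} {X Y : Set E} (hX : X.Finite) (ht : Thr X Y 2) (hp : Pi X Y v 1)
    (hm : Mach Y u v) : Good X Y := by
  let S : Set E → Set E → Prop := fun X Y => X.Finite ∧ Thr X Y 2 ∧ Pi X Y v 1 ∧ Mach Y u v ∧
    ∃ w, (∀ a, s(w, a) ∉ X) ∧ v ≠ w ∧ HasH (insert s(v, w) Y)
  have A : ∀ X Y : Set E, X.Finite → Thr X Y 2 → Pi X Y v 1 → Mach Y u v → Resp S X Y := by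
    rintro X Y hX ht hp ⟨P, hc, hb⟩
    obtain ⟨n, hn⟩ := exists_bound hX
    obtain ⟨k, hk⟩ := P.bddAbove
    have hw : ∀ a, s(n + k + u + v + 1, a) ∉ X := fun a h => by have := hn _ _ h; omega
    have hP : n + k + u + v + 1 ∉ P := fun h => by have := hk h; omega
    refine ⟨ht.noH (by omega), s(u, n + k + u + v + 1), by simp; omega,
      fun h => hw _ (Sym2.eq_swap ▸ h), Or.inr ⟨hX, ht.mono le_rfl (Set.subset_insert _ _),
      hp.mono le_rfl (Set.subset_insert _ _), ⟨P, hc, hb.mono (Set.subset_insert _ _)⟩,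
      _, hw, by omega, u, v, insert (n + k + u + v + 1) P,
      by rw [Finset.card_insert_of_notMem hP, hc], hb.1, ?_, ?_,
      fun x hx => ?_⟩⟩
    · rw [Finset.mem_insert]; rintro (h | h); omega; exact hb.2.1 h
    · rw [Finset.mem_insert]; rintro (h | h); omega; exact hb.2.2.1 h
    · rcases Finset.mem_insert.1 hx with rfl | hx
      · exact ⟨Or.inr (Or.inl rfl), Or.inl rfl⟩
      · exact ⟨Or.inr (Or.inr (hb.2.2.2 x hx).1), Or.inr (Or.inr (hb.2.2.2 x hx).2)⟩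
  have B : Closed S S := by
    rintro X Y ⟨hX, ht, hp, hm, w, hw, hv, hH⟩
    refine ⟨hX, ht.noH (by omega), fun e e1 e2 e3 => ?_⟩
    by_cases he : e = s(v, w)
    · subst he
      exact A _ _ (hX.insert _) (ht.pend hw hp) (hp.pend hw hv) hm
    · refine ⟨(ht.step (c' := 1) le_rfl e3).noH le_rfl, s(v, w), by simpa using hv, ?_, Or.inl hH⟩
      rintro (h | h)
      exacts [he h.symm, hw _ (Sym2.eq_swap ▸ h)]
  exact (A X Y hX ht hp hm).imp fun X Y h => ⟨S, B, h⟩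

/-- membership of an edge in a book -/
def InT (p q : ℕ) (P : Finset ℕ) (e : E) : Prop := ∃ w ∈ P, e = s(p, w) ∨ e = s(q, w)

theorem Book.inT {X : Set E} {p q : ℕ} {P : Finset ℕ} (h : Book X p q P) {e : E}
    (he : InT p q P e) : e ∈ X := by
  rcases he with ⟨w, hw, rfl | rfl⟩
  exacts [(h.2.2.2 w hw).1, (h.2.2.2 w hw).2]

theorem Book.of_inT {X Z : Set E} {p q : ℕ} {P : Finset ℕ} (h : Book X p q P)
    (hZ : ∀ e, InT p q P e → e ∈ X → e ∈ Z) : Book Z p q P :=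
  ⟨h.1, h.2.1, h.2.2.1, fun w hw =>
    ⟨hZ _ ⟨w, hw, Or.inl rfl⟩ (h.2.2.2 w hw).1, hZ _ ⟨w, hw, Or.inr rfl⟩ (h.2.2.2 w hw).2⟩⟩

/-- the book uses at most one of the two edges from `a`, `b` to each vertex of `O` -/
def Excl (a b : ℕ) (O : Set ℕ) (p q : ℕ) (P : Finset ℕ) : Prop :=
  ∀ w ∈ O, ¬ (InT p q P s(a, w) ∧ InT p q P s(b, w))

/-- both players can threaten for ever -/
theorem safe_of_env {a b u v : ℕ} {O : Set ℕ} {X Y Z : Set E} (hab : a ≠ b) (ha : a ∉ O)
    (hb : b ∉ O) (hX : X.Finite) (hd : ∀ e ∈ X, e ∉ Y) (hZ : X ⊆ Z)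
    (hO : ∀ w ∈ O, s(a, w) ∈ Z ∧ s(b, w) ∈ Z ∧ s(a, w) ∉ X ∧ s(b, w) ∉ X)
    (hm : Mach Y u v)
    (C1 : ∀ F : Finset E, F.card < 3 → (∀ e ∈ F, e ∉ Y) → ∀ p q P, P.card = 4 →
      Book (Z ∪ F) p q P → ¬ Excl a b O p q P)
    (C2 : ∀ F : Finset E, F.card < 2 → (∀ e ∈ F, e ∉ Y) → ∀ q P, P.card = 3 →
      Book (Z ∪ F) v q P → ¬ Excl a b O v q P) : Safe X Y := by
  let S : Set E → Set E → Prop := fun X' Y' => X'.Finite ∧ X' ⊆ Z ∧ Y ⊆ Y' ∧ (∀ e ∈ X', e ∉ Y') ∧
    ∀ w ∈ O, (s(a, w) ∈ X' → s(b, w) ∈ Y') ∧ (s(b, w) ∈ X' → s(a, w) ∈ Y')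
  have ne : ∀ w ∈ O, ∀ w' ∈ O, s(a, w) ≠ s(b, w') := by
    intro w hw w' hw' h
    rcases Sym2.eq_iff.1 h with h | h
    exacts [hab h.1, ha (h.1 ▸ hw')]
  have ex : ∀ X' Y', S X' Y' → ∀ F : Finset E, (∀ e ∈ F, e ∉ Y') →
      (∀ w ∈ O, ¬ (s(a, w) ∈ F ∧ s(b, w) ∈ F)) → ∀ p q P, Book (X' ∪ F) p q P →
      Excl a b O p q P := by
    rintro X' Y' ⟨-, -, -, h4, h5⟩ F hF h2 p q P hb w hw ⟨i1, i2⟩
    have nY : ∀ e ∈ X' ∪ (F : Set E), e ∉ Y' := by
      rintro e (h | h)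
      exacts [h4 e h, hF e h]
    rcases hb.inT i1 with j1 | j1
    · exact nY _ (hb.inT i2) ((h5 w hw).1 j1)
    rcases hb.inT i2 with j2 | j2
    · exact nY _ (hb.inT i1) ((h5 w hw).2 j2)
    exact h2 w hw ⟨j1, j2⟩
  have small : ∀ F : Finset E, F.card < 2 → ∀ w ∈ O, ¬ (s(a, w) ∈ F ∧ s(b, w) ∈ F) :=
    fun F hF w hw h => ne w hw w hw (Finset.card_le_one.1 (by omega) _ h.1 _ h.2)
  have thr : ∀ X' Y', S X' Y' → Thr X' Y' 2 := by
    rintro X' Y' hS F h1 h2 ⟨p, q, P, hc, hb⟩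
    exact C1 F (by omega) (fun e he h => h2 e he (hS.2.2.1 h)) p q P hc
      (hb.mono (Set.union_subset_union_left _ hS.2.1)) (ex X' Y' hS F h2 (small F h1) p q P hb)
  refine Safe.coind (S := S) ?_ ⟨hX, hZ, subset_rfl, hd, fun w hw =>
    ⟨fun h => absurd h (hO w hw).2.2.1, fun h => absurd h (hO w hw).2.2.2⟩⟩
  intro X' Y' hS
  have ht := thr X' Y' hS
  refine ⟨hS.1, ht.noH (by omega), fun e e1 e2 e3 => ?_⟩
  have hH := (ht.step (c' := 1) le_rfl e3).noH le_rfl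
  obtain ⟨h1, h2, h3, h4, h5⟩ := id hS
  have dj : ∀ f, f ≠ e → f ∉ X' → ∀ z ∈ insert e X', z ∉ insert f Y' := by
    rintro f f1 f2 z (rfl | hz) (rfl | hy)
    exacts [f1 rfl, e3 hy, f2 hz, h4 z hz hy]
  by_cases c1 : ∃ w ∈ O, e = s(a, w)
  · obtain ⟨w, hw, rfl⟩ := c1
    have f2 : s(b, w) ∉ X' := fun h => e3 ((h5 w hw).2 h)
    refine ⟨hH, s(b, w), by simpa using fun h : b = w => hb (h ▸ hw), ?_, Or.inr (Or.inl
      ⟨h1.insert _, Set.insert_subset (hO w hw).1 h2, h3.trans (Set.subset_insert _ _),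
      dj _ (ne w hw w hw).symm f2, fun x hx => ⟨?_, ?_⟩⟩)⟩
    · rintro (h | h)
      exacts [ne w hw w hw h.symm, f2 h]
    · rintro (h | h)
      exacts [Or.inl (by rw [Sym2.congr_right.1 h]), Or.inr ((h5 x hx).1 h)]
    · rintro (h | h)
      exacts [absurd h.symm (ne w hw x hx), Or.inr ((h5 x hx).2 h)]
  by_cases c2 : ∃ w ∈ O, e = s(b, w)
  · obtain ⟨w, hw, rfl⟩ := c2
    have f2 : s(a, w) ∉ X' := fun h => e3 ((h5 w hw).1 h)
    refine ⟨hH, s(a, w), by simpa using fun h : a = w => ha (h ▸ hw), ?_, Or.inr (Or.inl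
      ⟨h1.insert _, Set.insert_subset (hO w hw).2.1 h2, h3.trans (Set.subset_insert _ _),
      dj _ (ne w hw w hw) f2, fun x hx => ⟨?_, ?_⟩⟩)⟩
    · rintro (h | h)
      exacts [ne w hw w hw h, f2 h]
    · rintro (h | h)
      exacts [absurd h (ne x hx w hw), Or.inr ((h5 x hx).1 h)]
    · rintro (h | h)
      exacts [Or.inl (by rw [Sym2.congr_right.1 h]), Or.inr ((h5 x hx).2 h)]
  have nF : ∀ F : Finset E, (∀ z ∈ F, z ∉ Y') → ∀ z ∈ insert e F, z ∉ Y' := by
    intro F hF z hz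
    rcases Finset.mem_insert.1 hz with rfl | hz
    exacts [e3, hF z hz]
  have sm : ∀ F : Finset E, F.card < 2 → ∀ w ∈ O, ¬ (s(a, w) ∈ insert e F ∧ s(b, w) ∈ insert e F) := by
    rintro F hF w hw ⟨i1, i2⟩
    rcases Finset.mem_insert.1 i1 with i1 | i1
    · exact c1 ⟨w, hw, i1.symm⟩
    rcases Finset.mem_insert.1 i2 with i2 | i2
    · exact c2 ⟨w, hw, i2.symm⟩
    exact small F hF w hw ⟨i1, i2⟩
  refine Resp.imp (fun _ _ => Or.inr) (good_of_mach (u := u) (v := v) (h1.insert e) ?_ ?_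
    (hm.mono h3))
  · rintro F f1 f2 ⟨p, q, P, hc, hb⟩
    rw [ins_union] at hb
    exact C1 _ (by have := Finset.card_insert_le e F; omega) (fun z hz h => nF F f2 z hz (h3 h))
      p q P hc (hb.mono (Set.union_subset_union_left _ h2))
      (ex X' Y' hS _ (nF F f2) (sm F f1) p q P hb)
  · rintro F f1 f2 q ⟨P, hc, hb⟩
    rw [ins_union] at hb
    exact C2 _ (by have := Finset.card_insert_le e F; omega) (fun z hz h => nF F f2 z hz (h3 h))
      q P hc (hb.mono (Set.union_subset_union_left _ h2))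
      (ex X' Y' hS _ (nF F f2) (sm F (by omega)) v q P hb)

/-- counting the missing edges of a book -/
theorem miss_count {X : Set E} {F : Finset E} {p q : ℕ} {P : Finset ℕ}
    (h : Book (X ∪ F) p q P) :
    2 * P.card ≤ F.card
      + 2 * (P.filter fun w => s(p, w) ∈ X ∧ s(q, w) ∈ X).card
      + (P.filter fun w => ¬ (s(p, w) ∈ X ↔ s(q, w) ∈ X)).card := by
  set A := (P.filter fun w => s(p, w) ∉ X).image fun w => s(p, w) with hA
  set B := (P.filter fun w => s(q, w) ∉ X).image fun w => s(q, w) with hB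
  have cA : A.card = (P.filter fun w => s(p, w) ∉ X).card :=
    Finset.card_image_of_injective _ fun x y h => Sym2.congr_right.1 h
  have cB : B.card = (P.filter fun w => s(q, w) ∉ X).card :=
    Finset.card_image_of_injective _ fun x y h => Sym2.congr_right.1 h
  have mA : ∀ e ∈ A, ∃ w ∈ P, e = s(p, w) ∧ e ∉ X := fun e he => by
    obtain ⟨w, hw, rfl⟩ := Finset.mem_image.1 he
    exact ⟨w, (Finset.mem_filter.1 hw).1, rfl, (Finset.mem_filter.1 hw).2⟩
  have mB : ∀ e ∈ B, ∃ w ∈ P, e = s(q, w) ∧ e ∉ X := fun e he => by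
    obtain ⟨w, hw, rfl⟩ := Finset.mem_image.1 he
    exact ⟨w, (Finset.mem_filter.1 hw).1, rfl, (Finset.mem_filter.1 hw).2⟩
  have dAB : Disjoint A B := Finset.disjoint_left.2 fun e h1 h2 => by
    obtain ⟨w, hw, rfl, -⟩ := mA e h1
    obtain ⟨x, hx, e, -⟩ := mB _ h2
    rcases Sym2.eq_iff.1 e with e | e
    exacts [h.1 e.1, h.2.1 (e.1 ▸ hx)]
  have sub : A ∪ B ⊆ F := fun e he => by
    rcases Finset.mem_union.1 he with he | he
    · obtain ⟨w, hw, rfl, n⟩ := mA e he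
      exact ((h.2.2.2 w hw).1).resolve_left n
    · obtain ⟨w, hw, rfl, n⟩ := mB e he
      exact ((h.2.2.2 w hw).2).resolve_left n
  have le := Finset.card_le_card sub
  rw [Finset.card_union_of_disjoint dAB, cA, cB] at le
  have eq : (P.filter fun w => s(p, w) ∉ X).card + (P.filter fun w => s(q, w) ∉ X).card
      + 2 * (P.filter fun w => s(p, w) ∈ X ∧ s(q, w) ∈ X).card
      + (P.filter fun w => ¬ (s(p, w) ∈ X ↔ s(q, w) ∈ X)).card = 2 * P.card := by
    simp only [Finset.card_filter, Finset.mul_sum, ← Finset.sum_add_distrib]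
    rw [Finset.card_eq_sum_ones, Finset.mul_sum]
    refine Finset.sum_congr rfl fun w _ => ?_
    by_cases h1 : s(p, w) ∈ X <;> by_cases h2 : s(q, w) ∈ X <;> simp [h1, h2]
  omega

end Pool.Agent.Lib.MP_715591_co.K24
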